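import Pool.Agent.R936.ArbF.NcDefs

/-!
# Tate classes, class by class: definitions
-/

open CategoryTheory AlgebraicGeometry

universe u v w

namespace Pool.Agent.R936.ArbF

open Pool.Agent.H914 Pool.Agent.W534 VarClass Obj WeilCohomology Polynomial

variable {k : Type u} [Field k] {𝒱 : VarClass k} {ops : CycleOps 𝒱}

/-- The slopes `s` of all eigenvalues of Frobenius endomorphisms on the cohomology groups `H^d(Z)`
satisfy `|2 s - d| ≤ ℓ`. -/
def SlopesLe {W : WeilCohomology.{u, v} ops} {p : ℕ} [Fact p.Prime] (Φ : FrobSystem W p)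
    (Z : 𝒱.Obj) (ℓ : ℕ) : Prop :=
  ∀ (s d : ℕ) (μ : W.K) (z : W.H Z), 0 < s → z ∈ W.gr Z d → z ≠ 0 →
    W.map (iter (Φ.Fr Z) s) z = μ • z → SlopesWithin p (card Φ Z s) μ d ℓ

/-- The class is a linear combination of classes of algebraic cycles. -/
def IsAlgClass {W : WeilCohomology.{u, v} ops} {Y : 𝒱.Obj} (c : W.H Y) : Prop :=
  c ∈ Submodule.span W.K {x | ∃ (i : ℕ) (z : Y.Cycles), Y.IsCyc i z ∧ W.cl Y z = x}

end Pool.Agent.R936.ArbF
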