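import Pool.Agent.R936.ArbF.NumF

/-!
# Homological and numerical equivalence on products with an arbitrary factor over finite fields
-/

set_option linter.unusedVariables false
set_option linter.unusedSectionVars false

open CategoryTheory AlgebraicGeometry TensorProduct

universe u v w

namespace Pool.Agent.R936.ArbF

open Pool.Agent.H914 Pool.Agent.W534 VarClass Obj WeilCohomology Module
open Pool.Agent.Y163 (HBasis genU mem_genU prod_perm)
open Pool.Agent.R940 (IsEig repr_zero root_charpoly exists_ebasis pole_of_semisimple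
  semisimple_of_poles IsWeilFamily weilFamily HasIntegralPolys IsSlopeDenominator slopeDenominator
  deg_le)
open Pool.Agent.R936.Hel
open Pool.Agent.R936.Arb (powL HasZ)
open Pool.Agent.H281R3.HT

variable {k : Type u} [Field k] {𝒱 : VarClass k} {ops : CycleOps 𝒱}
  {W : WeilCohomology.{u, v} ops} {Y Z P Q : 𝒱.Obj} {p : ℕ} {Φ : FrobSystem W p}
  {I : Type w} {X : I → 𝒱.Obj}

/-- **One product of members for all varieties over the finite field: hom = num.** -/
theorem num_main [hp : Fact p.Prime] [IsAlgClosed W.K] {σ : W.K →+* ℂ} [Nonempty I]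
    (hRH : ∀ Z, RiemannHyp Φ σ Z) {e : ℕ} (he : ∀ i, Φ.e (X i) = e)
    (hint : ∀ i, HasIntegralPolys Φ σ (X i)) {D : ℕ} (hD : ∀ i, IsSlopeDenominator Φ σ (X i) D)
    {R : ℕ} (hR : RankLe {z | ∃ i, z ∈ eigenvalues Φ σ (X i)} R)
    (h : ∀ i L, (∃ F : Finset I, F.card ≤ R + 1 ∧ ∀ j ∈ i :: L, j ∈ F) →
      ∀ j, j ≤ (prodOf X i L).dim → PoleFormula Φ σ (prodOf X i L) j) :
    ∃ (i0 : I) (L0 : List I), ∀ Z : 𝒱.Obj, Φ.e Z = e → HasIntegralPolys Φ σ Z →
      (HomEqNum W (Z.prod (powerOf X i0 L0 Z.dim)) ↔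
        ∀ i L, HomEqNum W (Z.prod (prodOf X i L))) := by
  classical
  choose ι hfin B lam hB using fun i => exists_ebasis Φ (X i)
  obtain ⟨i1⟩ := ‹Nonempty I›
  have he0 : 0 < e := he i1 ▸ Φ.e_pos _
  have hD0 : 0 < D := (hD i1).1
  have hq1 : 1 < p ^ e := Nat.one_lt_pow he0.ne' hp.out.one_lt
  have hq : ((p ^ e : ℕ) : W.K) ≠ 0 := Nat.cast_ne_zero.2 (by omega)
  have hroot : ∀ l : Σ i, ι i, (frobPoly Φ σ (X l.1) 1 (dg B l)).IsRoot (σ (lm lam l)) := by
    intro l
    rw [frobPoly_eq]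
    exact (root_charpoly (hB l.1) l.2).map
  have hnorm : ∀ l : Σ i, ι i, ‖σ (lm lam l)‖ ^ 2 = ((p ^ e : ℕ) : ℝ) ^ dg B l := by
    intro l
    have h1 := hRH (X l.1) 1 one_pos _ _ (hroot l)
    rw [h1, Pool.Agent.W534.card, mul_one, he]
  have hdual : ∀ l : Σ i, ι i, ∃ l' : Σ i, ι i, l'.1 = l.1 ∧ TM B lam (p ^ e) {l', l} := by
    intro l
    obtain ⟨m, _, h1, h2⟩ := exists_dual (hB l.1) l.2
    refine ⟨⟨l.1, m⟩, rfl, (X l.1).dim, ?_, 1, one_pos, ?_⟩
    · rw [← h1]
      simp [dg]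
    · rw [pow_one, mul_one, ← he l.1, ← h2]
      simp [lm]
  have hne : ∀ l : Σ i, ι i, lm lam l ≠ 0 := by
    intro l h0
    have h1 := hnorm l
    rw [h0, map_zero, norm_zero, zero_pow two_ne_zero] at h1
    have h2 : (0 : ℝ) < ((p ^ e : ℕ) : ℝ) ^ dg B l := by
      have : (0 : ℝ) < ((p ^ e : ℕ) : ℝ) := by exact_mod_cast (zero_lt_one.trans hq1)
      positivity
    exact h2.ne h1
  have hRel : ∀ s : Fin (R + 1) → (Σ i, ι i), ∃ a : Fin (R + 1) → ℤ, a ≠ 0 ∧
      ∏ i, (lm lam (s i)) ^ a i = 1 := by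
    intro s
    obtain ⟨a, ha, h1⟩ := hR (fun i => σ (lm lam (s i))) fun i => ⟨(s i).1, _, hroot (s i)⟩
    refine ⟨a, ha, ?_⟩
    apply σ.injective
    rw [map_one, ← h1, map_prod]
    exact Finset.prod_congr rfl fun i _ => by rw [map_zpow₀]
  have hR' : ∀ s : Fin (R + 1) → (Σ i, ι i), ∃ a : Fin (R + 1) → ℤ, a ≠ 0 ∧
      ∑ i, a i • ucl (un hne (s i)) = 0 := by
    intro s
    obtain ⟨a, ha, h1⟩ := hRel s
    refine ⟨a, ha, ?_⟩
    have h2 : ∏ i, (un hne (s i)) ^ a i = 1 := by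
      apply Units.ext
      rw [Units.val_one, ← h1]
      push_cast
      rfl
    have h3 := congrArg ucl h2
    rw [ucl_prod] at h3
    exact h3
  have hT : ∀ i L, (∃ F : Finset I, F.card ≤ R + 1 ∧ ∀ j ∈ i :: L, j ∈ F) →
      ∀ j, SemisimpleTateIn Φ (prodOf X i L) j := fun i L hF j =>
    semisimple_of_poles (hRH _) (h i L hF) j
  have hall : ∀ M : Multiset (Σ i, ι i), TM B lam (p ^ e) M → Alg B M := fun M hM =>
    alg_of_tm hB he he0 hq hq1 hne hnorm hdual hR' hT hM
  -- the case without letters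
  rcases isEmpty_or_nonempty (Σ i, ι i) with hem | ⟨⟨l0⟩⟩
  · refine ⟨i1, [], fun Z _ _ => ⟨fun _ i L j hj z _ _ => ?_, fun hZ => hZ _ _⟩⟩
    set c := W.cl _ z
    have h0 : c = 0 := by
      obtain ⟨g⟩ := exists_prj X L i
      have h1 : (1 : W.H (X i)) = 0 := by
        have := Fintype.ofFinite (ι i)
        have h2 := (B i).b.sum_repr 1
        rw [← h2]
        exact Finset.sum_eq_zero fun a _ => (hem.false ⟨i, a⟩).elim
      have h2 : (1 : W.H (Z.prod (prodOf X i L))) = 0 := by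
        have h3 := congrArg (W.map (snd Z _ ≫ g)) h1
        rwa [map_one, map_zero] at h3
      rw [← mul_one c, h2, mul_zero]
    exact h0
  have hW : IsWeilFamily p e D (lm lam) (dg B) := isWeilFamily hB (fun i => hRH _) hint hD he
  choose st hst1 hst2 using hdual
  have hpar : ∀ l, Even (dg B (st l) + dg B l) := by
    intro l
    obtain ⟨J, hJ, _⟩ := hst2 l
    have h1 : (({st l, l} : Multiset (Σ i, ι i)).map (dg B)).sum = dg B (st l) + dg B l := by
      simp
    rw [h1] at hJ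
    rw [hJ]
    exact even_two_mul J
  have hst : ∀ l, rwi he0 hW (st l) = - rwi he0 hW l := by
    intro l
    funext ψ
    have h1 := row_of_tm he0 hW (M := {st l, l}) (hst2 l) ψ
    have h2 : (({st l, l} : Multiset (Σ i, ι i)).map fun l => rwi he0 hW l ψ).sum =
      rwi he0 hW (st l) ψ + rwi he0 hW l ψ := by simp
    rw [h2] at h1
    rw [Pi.neg_apply]
    omega
  have hN : ∀ s : Fin (R + 1) → (Σ i, ι i), ∃ a : Fin (R + 1) → ℤ, a ≠ 0 ∧
      ∑ i, a i • rwi he0 hW (s i) = 0 := by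
    intro s
    obtain ⟨a, ha, h1⟩ := hRel s
    refine ⟨a, ha, rows_dep he0 hW s h1 ?_⟩
    have h2 := congrArg (fun x => ‖σ x‖ ^ 2) h1
    have hqpos : (0 : ℝ) < ((p ^ e : ℕ) : ℝ) := by exact_mod_cast (zero_lt_one.trans hq1)
    have h3 : ‖σ (∏ i, (lm lam (s i)) ^ a i)‖ ^ 2 =
        (((p ^ e : ℕ) : ℝ)) ^ (∑ i, a i * (dg B (s i) : ℤ)) := by
      rw [map_prod, norm_prod, ← Finset.prod_pow]
      have h4 : ∀ i, ‖σ ((lm lam (s i)) ^ a i)‖ ^ 2 =
          (((p ^ e : ℕ) : ℝ)) ^ (a i * (dg B (s i) : ℤ)) := by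
        intro i
        rw [map_zpow₀, norm_zpow, ← zpow_natCast, ← zpow_mul, mul_comm (a i) ((2 : ℕ) : ℤ),
          zpow_mul, zpow_natCast, hnorm, ← zpow_natCast, ← zpow_mul, mul_comm (a i)]
      rw [Finset.prod_congr rfl fun i _ => h4 i]
      have h5 : ∀ t : Finset (Fin (R + 1)), ∏ i ∈ t, (((p ^ e : ℕ) : ℝ)) ^ (a i * (dg B (s i) : ℤ)) =
          (((p ^ e : ℕ) : ℝ)) ^ (∑ i ∈ t, a i * (dg B (s i) : ℤ)) := by
        intro t
        induction t using Finset.induction_on with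
        | empty => simp
        | insert b t hb ih =>
          rw [Finset.prod_insert hb, Finset.sum_insert hb, ih, zpow_add₀ hqpos.ne']
      exact h5 _
    rw [h3, map_one, norm_one, one_pow, ← zpow_zero (((p ^ e : ℕ) : ℝ))] at h2
    exact zpow_right_injective₀ hqpos (by exact_mod_cast hq1.ne') h2
  have hz : ∀ l : (Σ i, ι i), HasZ (hd (rwi he0 hW) (dg B)) l.1 := by
    intro l
    by_contra hcon
    have h1 : ∀ a, (B l.1).deg a ≠ 0 := by
      intro a ha
      apply hcon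
      refine ⟨a, ?_⟩
      funext o
      rcases o with ψ | o
      · exact congrFun (rwi_zero he0 hW (l := ⟨l.1, a⟩) ha) ψ
      · change ((dg B ⟨l.1, a⟩ : ℕ) : ℤ) = 0
        rw [dg, ha]
        rfl
    have h2 : ∀ a, (B l.1).b.repr (1 : W.H (X l.1)) a = 0 := fun a =>
      repr_zero (W.isInternal (X l.1)).submodule_iSupIndep (B l.1).b
        (fun a => (B l.1).deg a) (fun a => (B l.1).mem a) (W.one_mem _) (h1 a)
    have h3 : (1 : W.H (X l.1)) = 0 := by
      have := Fintype.ofFinite (ι l.1)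
      rw [← (B l.1).b.sum_repr 1]
      exact Finset.sum_eq_zero fun a _ => by rw [h2, zero_smul]
    apply (B l.1).b.ne_zero l.2
    rw [← mul_one ((B l.1).b l.2), h3, mul_zero]
  obtain ⟨L0, hL0⟩ := exists_productP hN hst hpar D hz l0
  have hcan : ∀ A A' C C' : Multiset (Σ i, ι i), TM B lam (p ^ e) (A + C) →
      TM B lam (p ^ e) (A' + C) → TM B lam (p ^ e) (A' + C') → TM B lam (p ^ e) (A + C') := by
    intro A A' C C' h1 h2 h3
    refine tm_of_rows he0 hD0 hW ?_ fun ψ => ?_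
    · obtain ⟨J1, hJ1, _⟩ := h1
      obtain ⟨J2, hJ2, _⟩ := h2
      obtain ⟨J3, hJ3, _⟩ := h3
      rw [Multiset.map_add, Multiset.sum_add] at hJ1 hJ2 hJ3 ⊢
      rw [Nat.even_iff]
      omega
    · have e1 := row_of_tm he0 hW (M := A + C) h1 ψ
      have e2 := row_of_tm he0 hW (M := A' + C) h2 ψ
      have e3 := row_of_tm he0 hW (M := A' + C') h3 ψ
      rw [Multiset.map_add, Multiset.sum_add] at e1 e2 e3 ⊢
      omega
  refine ⟨l0.1, L0, fun Z heZ hZint => ⟨fun hpole i L => ?_, fun hZ => hZ _ _⟩⟩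
  obtain ⟨κZ, hκZ, BZ, lamZ, hBZ⟩ := exists_ebasis Φ Z
  have hDZ := slopeDenominator (hRH Z) hZint
  set DZ := Φ.e Z * (finrank W.K (W.H Z)).factorial with hDZdef
  have hBE : ∀ o, IsEig Φ (BE B BZ o) (lamE lam lamZ o) := by
    rintro (_ | i)
    · exact hBZ
    · exact hB i
  have heE : ∀ o, Φ.e (XE X Z o) = e := by
    rintro (_ | i)
    · exact heZ
    · exact he i
  have hWE : IsWeilFamily p e (D * DZ) (lm (lamE lam lamZ)) (dg (BE B BZ)) := by
    refine isWeilFamily hBE (fun o => hRH _) ?_ ?_ heE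
    · rintro (_ | i)
      · exact hZint
      · exact hint i
    · rintro (_ | i)
      · show IsSlopeDenominator Φ σ Z (D * DZ)
        rw [mul_comm]
        exact slope_mul hDZ hD0
      · exact slope_mul (hD i) hDZ.1
  have hDE : 0 < D * DZ := Nat.mul_pos hD0 hDZ.1
  -- the rows of the extended family
  have hrho_up : ∀ ψ (l : Σ i, ι i), rho hWE ψ (up l) = rho hW ψ l := fun ψ l => rfl
  have hdg_up : ∀ l : Σ i, ι i, dg (BE B BZ) (up l) = dg B l := fun l => rfl
  have hsum_up : ∀ ψ (M : Multiset (Σ i, ι i)), ((M.map up).map (rho hWE ψ)).sum =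
      (M.map (rho hW ψ)).sum := by
    intro ψ M
    rw [Multiset.map_map]
    rfl
  have hdeg_up : ∀ (M : Multiset (Σ i, ι i)), ((M.map up).map (dg (BE B BZ))).sum =
      (M.map (dg B)).sum := by
    intro M
    rw [Multiset.map_map]
    rfl
  have hbound : ∀ (ψ : Emb W.K p) (a : κZ), |rho hWE ψ (zl a)| ≤ Z.dim := by
    intro ψ a
    obtain ⟨m, _, h1, h2⟩ := exists_dual hBZ a
    have hTM : TMa (p ^ e) (lm (lamE lam lamZ)) (dg (BE B BZ)) ({zl m, zl a} : Multiset _) := by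
      refine ⟨Z.dim, ?_, 1, one_pos, ?_⟩
      · rw [← h1]
        simp [dg, zl, BE]
      · rw [pow_one, mul_one, ← heZ, ← h2]
        simp [lm, zl, lamE]
    have h3 := rho_of_tm he0 hWE hTM ψ
    have h4 : (({zl m, zl a} : Multiset (Σ o, ιE ι κZ o)).map (rho hWE ψ)).sum =
      rho hWE ψ (zl m) + rho hWE ψ (zl a) := by simp
    rw [h4] at h3
    have h5 := abs_rho he0 hWE ψ (zl a)
    have h6 := abs_rho he0 hWE ψ (zl m)
    have h7 : |rho hWE ψ (zl m)| = |rho hWE ψ (zl a)| := by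
      rw [← abs_neg (rho hWE ψ (zl a))]
      congr 1
      linarith
    rw [h7] at h6
    have h8 : (dg (BE B BZ) (zl m) : ℝ) + dg (BE B BZ) (zl a) = 2 * Z.dim := by
      have h9 : (BZ.deg m : ℝ) + BZ.deg a = 2 * Z.dim := by exact_mod_cast h1
      exact h9
    rcases le_total (dg (BE B BZ) (zl a) : ℝ) Z.dim with h9 | h9
    · exact h5.trans h9
    · exact h6.trans (by linarith)
  · refine num_geo hB hBZ he heZ he0 hall (i0 := l0.1) (L' := powL L0 l0.1 Z.dim) hcan ?_ hpole i L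
    · intro a M hM
      have hM' : TMa (p ^ e) (lm (lamE lam lamZ)) (dg (BE B BZ)) (zl a ::ₘ M.map up) := hM
      have hrho : ∀ ψ, rho hWE ψ (zl a) + (M.map (rho hW ψ)).sum = 0 := by
        intro ψ
        have h1 := rho_of_tm he0 hWE hM' ψ
        rwa [Multiset.map_cons, Multiset.sum_cons, hsum_up] at h1
      have hdegM : Even (dg (BE B BZ) (zl a) + (M.map (dg B)).sum) := by
        obtain ⟨J, hJ, _⟩ := hM'
        rw [Multiset.map_cons, Multiset.sum_cons, hdeg_up] at hJ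
        rw [hJ]
        exact even_two_mul J
      obtain ⟨b, hb1, hb2, hb3⟩ := hL0 Z.dim M (by
        intro ψ
        have h1 : ((Arb.lam (rwi he0 hW) M ψ : ℤ) : ℝ) = D * (M.map (rho hW ψ)).sum := by
          rw [← sum_rwi he0 hW, lam_apply]
        have h2 : ((|Arb.lam (rwi he0 hW) M ψ| : ℤ) : ℝ) ≤ ((D * Z.dim : ℤ) : ℝ) := by
          rw [Int.cast_abs, h1, abs_mul, Nat.abs_cast]
          push_cast
          refine mul_le_mul_of_nonneg_left ?_ (Nat.cast_nonneg D)
          have h3 : (M.map (rho hW ψ)).sum = - rho hWE ψ (zl a) := by linarith [hrho ψ]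
          rw [h3, abs_neg]
          exact hbound ψ a
        exact_mod_cast h2) (by
        intro h0
        have h1 : BZ.deg a ≤ 2 * Z.dim := deg_le BZ a
        have h2 : dg (BE B BZ) (zl a) = 0 := by
          change BZ.deg a = 0
          omega
        rwa [h2, zero_add] at hdegM)
      have hrow : ∀ ψ, (((↑b : Multiset (Σ i, ι i))).map (rho hW ψ)).sum = (M.map (rho hW ψ)).sum := by
        intro ψ
        have h1 := congrFun hb2 ψ
        rw [lam_apply, lam_apply] at h1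
        have h2 := sum_rwi he0 hW ψ (↑b : Multiset (Σ i, ι i))
        rw [h1, sum_rwi] at h2
        exact (mul_left_cancel₀ (Nat.cast_ne_zero.2 hD0.ne') h2).symm
      refine ⟨b, hb1, fun M0 hM0 => ?_⟩
      refine tm_of_rows he0 hD0 hW ?_ fun ψ => ?_
      · obtain ⟨J, hJ, _⟩ := hM0
        rw [Multiset.map_add, Multiset.sum_add] at hJ ⊢
        rw [Nat.even_iff] at hb3 ⊢
        omega
      · have h1 := sum_rwi he0 hW ψ ((↑b : Multiset (Σ i, ι i)) + M0)
        have h2 := rho_of_tm he0 hW (M := M + M0) hM0 ψ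
        rw [Multiset.map_add, Multiset.sum_add, ← hrow] at h2
        rw [Multiset.map_add (rho hW ψ), Multiset.sum_add, h2, mul_zero] at h1
        exact_mod_cast h1

end Pool.Agent.R936.ArbF
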