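import Pool.Agent.R936.ArbF.NcT
import Pool.Agent.R936.ArbF.FinD
import Pool.Agent.R936.ArbF.ClsDefs

/-!
# Tate classes on products with an arbitrary factor, class by class
-/

set_option linter.unusedVariables false
set_option linter.unusedSectionVars false

open CategoryTheory AlgebraicGeometry TensorProduct

universe u v w

namespace Pool.Agent.R936.ArbF

open Pool.Agent.H914 Pool.Agent.W534 VarClass Obj WeilCohomology Module
open Pool.Agent.Y163 (HBasis genU mem_genU prod_perm)
open Pool.Agent.R940 (IsEig repr_zero root_charpoly exists_ebasis pole_of_semisimple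
  semisimple_of_poles IsWeilFamily weilFamily HasIntegralPolys IsSlopeDenominator slopeDenominator
  deg_le)
open Pool.Agent.R936.Hel
open Pool.Agent.R936.Arb (powL HasZ zw zw_add zw_smul zw_smul' zw_zero zw_sum zw_ne contr contr_zw
  exists_dec contr_sum)
open Pool.Agent.R936.Nc (exists_act contr_add_right contr_smul_right contr_zero_right)
open Pool.Agent.Y133.Half (spanCycles_of_algSpan algSys)
open Pool.Agent.W536.RR (algSpan_map algSpan_mul one_mem_algSpan algSpan_push cl_mem_algSpan)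
open Pool.Agent.H281R3.HT

variable {k : Type u} [Field k] {𝒱 : VarClass k} {ops : CycleOps 𝒱}
  {W : WeilCohomology.{u, v} ops} {Y Z P Q : 𝒱.Obj} {p : ℕ} {Φ : FrobSystem W p}
  {I : Type w} {X : I → 𝒱.Obj} {ι : I → Type v} {κZ : Type v}

section Geo

variable {B : ∀ i, HBasis W (X i) (ι i)} {BZ : HBasis W Z κZ} {lam : ∀ i, ι i → W.K}
  {lamZ : κZ → W.K}

/-- **Tate classes class by class.** -/
theorem clsf_geo [∀ i, Finite (ι i)] [Finite κZ] (hB : ∀ i, IsEig Φ (B i) (lam i))
    (hBZ : IsEig Φ BZ lamZ) {e : ℕ} (he : ∀ i, Φ.e (X i) = e) (heZ : Φ.e Z = e) (he0 : 0 < e)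
    (hp0 : ((p ^ e : ℕ) : W.K) ≠ 0)
    (hAlg : ∀ M, TM B lam (p ^ e) M → Alg B M)
    (hlet : ∀ l : Σ i, ι i, EigF Φ e (X l.1) (lm lam l) ((B l.1).b l.2))
    (hne : ∀ l : Σ i, ι i, lm lam l ≠ 0) {i0 : I} {L' : List I}
    (hcan : ∀ A A' C C' : Multiset (Σ i, ι i), TM B lam (p ^ e) (A + C) →
      TM B lam (p ^ e) (A' + C) → TM B lam (p ^ e) (A' + C') → TM B lam (p ^ e) (A + C'))
    (hb : ∀ (z : W.H Z) (d J : ℕ) (μ : W.K) (i : κZ) (M : Multiset (Σ i, ι i)), z ∈ W.gr Z d →
      EigF Φ e Z μ z → z ≠ 0 → μ * (M.map (lm lam)).prod = ((p ^ e : ℕ) : W.K) ^ J →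
      d + (M.map (dg B)).sum = 2 * J →
      TM (BE B BZ) (lamE lam lamZ) (p ^ e) (zl i ::ₘ M.map up) →
      ∃ b : List (Σ i, ι i), b.map Sigma.fst = i0 :: L' ∧
        TM (BE B BZ) (lamE lam lamZ) (p ^ e) (zl i ::ₘ (↑b : Multiset (Σ i, ι i)).map up) ∧
        (∀ M0, TM B lam (p ^ e) (↑b + M0) → TM B lam (p ^ e) (M + M0)) ∧
        ∀ M0, TM B lam (p ^ e) (M + M0) → TM B lam (p ^ e) (↑b + M0))
    (i : I) (L : List I) (J : ℕ)
    (c : W.H (Z.prod (prodOf X i L))) (hc : IsTate Φ (Z.prod (prodOf X i L)) J c) :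
    ∃ S : Set (W.H (Z.prod (prodOf X i0 L'))), S.Finite ∧
      (∀ s ∈ S, ∃ j, IsTate Φ (Z.prod (prodOf X i0 L')) j s) ∧
      (c ∈ algSpan W (Z.prod (prodOf X i L)) ↔
        ∀ s ∈ S, s ∈ algSpan W (Z.prod (prodOf X i0 L'))) := by
  classical
  have hBE : ∀ o, IsEig Φ (BE B BZ o) (lamE lam lamZ o) := by
    rintro (_ | i)
    · exact hBZ
    · exact hB i
  have heE : ∀ o, Φ.e (XE X Z o) = e := by
    rintro (_ | i)
    · exact heZ
    · exact he i
  obtain ⟨s, hs, hcg⟩ := hc.mem
  obtain ⟨hcgr, hcE⟩ := (isTate_iff he0).1 hc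
  have hwords := hasWords_prod (X := X) B (fun i => inferInstance)
  obtain ⟨κ, hκ, b, F, N, hbF⟩ := hwords L i
  cases nonempty_fintype κ
  cases nonempty_fintype κZ
  let bb := (BZ.b.tensorProduct b).map (kappa W Z (prodOf X i L))
  have hbb : ∀ x, bb x = zw (BZ.b x.1) (lwf B (N x.2)) := by
    intro x
    rw [Module.Basis.map_apply, Module.Basis.tensorProduct_apply', kappa_tmul, ← (hbF x.2).1]
    rfl
  let z : κ → W.H Z := fun a => ∑ j, bb.repr c (j, a) • BZ.b j
  have hz' : c = ∑ a, zw (z a) (b a) := by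
    conv_lhs => rw [← bb.sum_repr c]
    rw [Fintype.sum_prod_type_right]
    refine Finset.sum_congr rfl fun a _ => ?_
    show _ = zw (∑ j, bb.repr c (j, a) • BZ.b j) (b a)
    rw [zw_sum]
    exact Finset.sum_congr rfl fun j _ => by rw [zw_smul, hbb, ← (hbF a).1]
  have hbl : ∀ x, bb x = lwf (BE B BZ) ((⟨zl x.1, fst Z _⟩ : Lt (XE X Z) (ιE ι κZ) (Z.prod _)) ::
      pull (snd Z _) ((N x.2).map upL)) := fun x => by rw [lwf_zw, hbb]
  -- the words which occur
  have hocc : ∀ j a, bb.repr c (j, a) ≠ 0 → TM (BE B BZ) (lamE lam lamZ) (p ^ e)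
      (zl j ::ₘ (↑((N a).map Sigma.fst) : Multiset (Σ i, ι i)).map up) := by
    intro j a h0
    have hTM := tm_of_repr hBE hbl (by
      let F' : List (Σ o, (Z.prod (prodOf X i L) ⟶ XE X Z o)) :=
        ⟨none, fst Z (prodOf X i L)⟩ ::
          F.map (fun x => ⟨some x.1, snd Z (prodOf X i L) ≫ x.2⟩)
      obtain ⟨S, S', hS, hS', hSS, h1⟩ := frob_lt Φ heE he0 F'
      refine ⟨S, S', hS, hS', hSS, fun x y hy t w => h1 ⟨y.1.1, y.2⟩ ?_ t w⟩
      rcases List.mem_cons.1 hy with rfl | hy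
      · exact List.mem_cons_self
      · apply List.mem_cons_of_mem
        obtain ⟨z, hz, rfl⟩ := List.mem_map.1 hy
        obtain ⟨z', hz', rfl⟩ := List.mem_map.1 hz
        exact List.mem_map.2 ⟨_, (hbF x.2).2 z' hz', rfl⟩) hs hcg h0
    rw [List.map_cons, pull_fst, map_up_fst, ← Multiset.cons_coe] at hTM
    exact hTM
  have hdeg : ∀ j a, bb.repr c (j, a) ≠ 0 →
      BZ.deg j + ((N a).map fun y => dg B y.1).sum = 2 * J := by
    intro j a h0
    by_contra hne'
    apply h0
    refine repr_zero (W.isInternal _).submodule_iSupIndep bb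
      (fun x => BZ.deg x.1 + ((N x.2).map fun y => dg B y.1).sum) (fun x => ?_) hcgr hne'
    rw [hbb]
    exact W.mul_mem (W.map_mem _ (BZ.mem _)) (W.map_mem _ (lwf_gr _))
  -- the words are eigenvectors
  have hν : ∀ a, ((N a).map fun y => lm lam y.1).prod ≠ 0 := by
    intro a h0
    obtain ⟨y, _, hy⟩ := List.mem_map.1 (List.prod_eq_zero_iff.1 h0)
    exact hne _ hy
  have hbE : ∀ a, EigF Φ e (prodOf X i L) (((N a).map fun y => lm lam y.1).prod) (b a) := by
    intro a
    rw [(hbF a).1]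
    exact eig_word hlet _
  have hzE := fun a => eig_comp he0 b hν hbE (z := z) (by rw [← hz']; exact hcE) a
  have hzg : ∀ a j, bb.repr c (j, a) ≠ 0 → z a ∈ W.gr Z (BZ.deg j) := by
    intro a j h0
    refine Submodule.sum_mem _ fun j' _ => ?_
    by_cases h1 : bb.repr c (j', a) = 0
    · rw [h1, zero_smul]
      exact Submodule.zero_mem _
    · have h2 : BZ.deg j' = BZ.deg j := by
        have := hdeg j a h0
        have := hdeg j' a h1
        omega
      rw [← h2]
      exact Submodule.smul_mem _ _ (BZ.mem j')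
  obtain ⟨G, hG⟩ := Pool.Agent.R936.Arb.exists_dual (W := W) b
  have key : ∀ a, ∃ s : W.H (Z.prod (prodOf X i0 L')),
      (∃ j, IsTate Φ (Z.prod (prodOf X i0 L')) j s) ∧
      (c ∈ algSpan W (Z.prod (prodOf X i L)) → s ∈ algSpan W (Z.prod (prodOf X i0 L'))) ∧
      (s ∈ algSpan W (Z.prod (prodOf X i0 L')) →
        zw (z a) (b a) ∈ algSpan W (Z.prod (prodOf X i L))) := by
    intro a
    by_cases hga : z a = 0
    · refine ⟨0, ⟨0, Submodule.zero_mem _, 1, one_pos, by rw [map_zero, smul_zero]⟩,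
        fun _ => Submodule.zero_mem _, fun _ => ?_⟩
      rw [hga, zw_zero]
      exact Submodule.zero_mem _
    obtain ⟨j, hj⟩ : ∃ j, bb.repr c (j, a) ≠ 0 := by
      by_contra hcon
      push Not at hcon
      exact hga (Finset.sum_eq_zero fun j _ => by rw [hcon j, zero_smul])
    have hprod : ((↑((N a).map Sigma.fst) : Multiset (Σ i, ι i)).map (lm lam)).prod =
        ((N a).map fun y => lm lam y.1).prod := by
      rw [Multiset.map_coe, List.map_map, Multiset.prod_coe]
      rfl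
    have hsumd : ((↑((N a).map Sigma.fst) : Multiset (Σ i, ι i)).map (dg B)).sum =
        ((N a).map fun y => dg B y.1).sum := by
      rw [Multiset.map_coe, List.map_map, Multiset.sum_coe]
      rfl
    obtain ⟨b1, hb1, hb2, hb3, hb4⟩ := hb (z a) (BZ.deg j) J _ j (↑((N a).map Sigma.fst))
      (hzg a j hj) (hzE a) hga (by rw [hprod, div_mul_cancel₀ _ (hν a)]) (by
        rw [hsumd]
        exact hdeg j a hj) (hocc j a hj)
    match b1, hb1, hb2, hb3, hb4 with
    | l :: b2, hb1, hb2, hb3, hb4 =>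
      rw [List.map_cons] at hb1
      obtain ⟨h1, h2⟩ := List.cons.inj hb1
      subst h1
      subst h2
      obtain ⟨C, hC1, hC2, _⟩ := isCan_prod hB b2 l
      -- the class on the second product is a Tate class
      have hTate : ∃ J', IsTate Φ (Z.prod (prodOf X l.1 (b2.map Sigma.fst))) J'
          (zw (z a) (lwf B C)) := by
        obtain ⟨J1, hJ1, s1, hs1, hs1'⟩ := hocc j a hj
        obtain ⟨J2, hJ2, s2, hs2, hs2'⟩ := hb2
        rw [Multiset.map_cons, Multiset.sum_cons, Multiset.map_map] at hJ1 hJ2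
        rw [Multiset.map_cons, Multiset.prod_cons, Multiset.map_map] at hs1' hs2'
        have hJ1' : BZ.deg j + ((↑((N a).map Sigma.fst) : Multiset (Σ i, ι i)).map (dg B)).sum =
          2 * J1 := hJ1
        have hJ2' : BZ.deg j + ((↑(l :: b2) : Multiset (Σ i, ι i)).map (dg B)).sum = 2 * J2 := hJ2
        have hs1'' : (lamZ j * ((↑((N a).map Sigma.fst) : Multiset (Σ i, ι i)).map (lm lam)).prod) ^ s1 =
          (((p ^ e) ^ (J1 * s1) : ℕ) : W.K) := hs1'
        have hs2'' : (lamZ j * ((↑(l :: b2) : Multiset (Σ i, ι i)).map (lm lam)).prod) ^ s2 =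
          (((p ^ e) ^ (J2 * s2) : ℕ) : W.K) := hs2'
        have hJJ : J1 = J := by
          rw [hsumd, hdeg j a hj] at hJ1'
          omega
        subst hJJ
        have hC3 : (C.map fun y => lm lam y.1).prod =
            ((↑(l :: b2) : Multiset (Σ i, ι i)).map (lm lam)).prod := by
          rw [← hC1, Multiset.map_coe, List.map_map, Multiset.prod_coe]
          rfl
        have hC4 : (C.map fun y => dg B y.1).sum =
            ((↑(l :: b2) : Multiset (Σ i, ι i)).map (dg B)).sum := by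
          rw [← hC1, Multiset.map_coe, List.map_map, Multiset.sum_coe]
          rfl
        refine ⟨J2, (isTate_iff he0).2 ⟨?_, ?_⟩⟩
        · rw [← hJ2', ← hC4]
          exact W.mul_mem (W.map_mem _ (hzg a j hj)) (W.map_mem _ (lwf_gr _))
        · refine EigF.congr (r := s1 * s2) (Nat.mul_pos hs1 hs2) ?_ ((hzE a).zw (eig_word hlet C))
          rw [hC3]
          set A := ((N a).map fun y => lm lam y.1).prod with hA
          set D := ((↑(l :: b2) : Multiset (Σ i, ι i)).map (lm lam)).prod with hD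
          rw [hprod] at hs1''
          have e1 : (((p ^ e : ℕ) : W.K) ^ J1 / A) ^ (s1 * s2) = lamZ j ^ (s1 * s2) := by
            have e2 : lamZ j ^ s1 * A ^ s1 = (((p ^ e : ℕ) : W.K) ^ J1) ^ s1 := by
              rw [← mul_pow, hs1'', Nat.cast_pow, ← pow_mul]
            rw [pow_mul, pow_mul, div_pow, ← e2, mul_div_cancel_right₀ _ (pow_ne_zero _ (hν a))]
          rw [mul_pow, e1, ← mul_pow, mul_comm s1 s2, pow_mul, hs2'', Nat.cast_pow, ← pow_mul,
            ← pow_mul]
          congr 1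
          ring
      refine ⟨_, hTate, fun hcalg => ?_, fun hs' => ?_⟩
      · -- complementary words
        let w : κ → Multiset (Σ i, ι i) := fun m => ↑((N m).map Sigma.fst)
        let δ : κ → ℕ := fun m => ((N m).map fun y => dg B y.1).sum
        let Co : κ → κ → Prop := fun m a' => TM B lam (p ^ e) (w m + w a') ∧
          δ m + δ a' = 2 * (prodOf X i L).dim
        have hCo : ∀ m a', W.tr _ (b a' * b m) ≠ 0 → Co m a' := by
          intro m a' h
          rw [(hbF a').1, (hbF m).1] at h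
          refine ⟨?_, ?_⟩
          · have h1 := tm_of_tr hB he he0 h
            rwa [add_comm] at h1
          · have h1 := deg_of_tr h
            rwa [add_comm] at h1
        let u : W.H (prodOf X i L) := ∑ m ∈ Finset.univ.filter (fun m => Co m a), G m a • b m
        have hu : u ∈ W.gr _ (2 * (prodOf X i L).dim - δ a) := by
          refine Submodule.sum_mem _ fun m hm => Submodule.smul_mem _ _ ?_
          have h1 := (Finset.mem_filter.1 hm).2.2
          rw [show 2 * (prodOf X i L).dim - δ a = δ m by omega, (hbF m).1]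
          exact lwf_gr _
        have htr : ∀ a', W.tr _ (b a' * u) = if a' = a then 1 else 0 := by
          intro a'
          by_cases hsame : ∀ m, Co m a' → Co m a
          · rw [← hG a a']
            show W.tr _ (b a' * ∑ m ∈ Finset.univ.filter (fun m => Co m a), G m a • b m) = _
            rw [Finset.mul_sum, map_sum, Finset.mul_sum, map_sum, Finset.sum_filter]
            refine Finset.sum_congr rfl fun m _ => ?_
            split_ifs with h
            · rfl
            · rw [mul_smul_comm, map_smul]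
              by_cases h0 : W.tr _ (b a' * b m) = 0
              · rw [h0, smul_zero]
              · exact absurd (hsame m (hCo m a' h0)) h
          · have hne : a' ≠ a := by
              rintro rfl
              exact hsame fun _ h => h
            rw [if_neg hne]
            show W.tr _ (b a' * ∑ m ∈ Finset.univ.filter (fun m => Co m a), G m a • b m) = _
            rw [Finset.mul_sum, map_sum]
            refine Finset.sum_eq_zero fun m hm => ?_
            rw [mul_smul_comm, map_smul]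
            by_cases h0 : W.tr _ (b a' * b m) = 0
            · rw [h0, smul_zero]
            · exfalso
              apply hsame
              intro m' hm'
              have h1 := hCo m a' h0
              have h2 := (Finset.mem_filter.1 hm).2
              refine ⟨hcan (w m') (w m) (w a') (w a) hm'.1 h1.1 h2.1, ?_⟩
              have h3 := hm'.2
              have h4 := h1.2
              have h5 := h2.2
              omega
        have hword : zw u (lwf B C) ∈
            algSpan W ((prodOf X i L).prod (prodOf X l.1 (b2.map Sigma.fst))) := by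
          show zw (∑ m ∈ Finset.univ.filter (fun m => Co m a), G m a • b m) (lwf B C) ∈ _
          rw [zw_sum]
          refine Submodule.sum_mem _ fun m hm => ?_
          rw [zw_smul, (hbF m).1]
          refine Submodule.smul_mem _ _ ?_
          have h1 := (Finset.mem_filter.1 hm).2.1
          rw [add_comm] at h1
          have h2 := hb4 _ h1
          rw [zw, map_lwf, map_lwf, ← lwf_append]
          refine hAlg _ h2 _ _ ?_
          rw [List.map_append, pull_fst, pull_fst, ← Multiset.coe_add, add_comm, hC1]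
        have h5 : contr c (zw u (lwf B C)) ∈
            algSpan W (Z.prod (prodOf X l.1 (b2.map Sigma.fst))) :=
          algSpan_push _ (algSpan_mul (algSpan_map _ hcalg) (algSpan_map _ hword))
        rw [hz', contr_sum] at h5
        have h6 : ∑ a', contr (zw (z a') (b a')) (zw u (lwf B C)) =
            zw (z a) (lwf B C) := by
          rw [Finset.sum_eq_single a]
          · rw [(hbF a).1, contr_zw (lwf_gr _) hu, ← (hbF a).1, htr, if_pos rfl, one_smul]
          · intro a' _ hne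
            rw [(hbF a').1, contr_zw (lwf_gr _) hu, ← (hbF a').1, htr, if_neg hne, zero_smul]
          · intro h
            exact absurd (Finset.mem_univ _) h
        rwa [h6] at h5
      · obtain ⟨κ', hκ', b', F', N', hN'⟩ := hwords (b2.map Sigma.fst) l.1
        obtain ⟨m, hm⟩ := exists_dualv b' hC2
        rw [(hN' m).1] at hm
        have hT1 := tm_of_tr hB he he0 hm
        rw [hC1] at hT1
        have hT2 := hb3 _ hT1
        have hword : zw (lwf B (N' m)) (lwf B (N a)) ∈
            algSpan W ((prodOf X l.1 (b2.map Sigma.fst)).prod (prodOf X i L)) := by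
          rw [zw, map_lwf, map_lwf, ← lwf_append]
          refine hAlg _ hT2 _ _ ?_
          rw [List.map_append, pull_fst, pull_fst, ← Multiset.coe_add, add_comm]
        have h5 : contr (zw (z a) (lwf B C)) (zw (lwf B (N' m)) (lwf B (N a))) ∈
            algSpan W (Z.prod (prodOf X i L)) :=
          algSpan_push _ (algSpan_mul (algSpan_map _ hs') (algSpan_map _ hword))
        rw [contr_zw (lwf_gr _) (lwf_gr _)] at h5
        have h6 := Submodule.smul_mem _ (W.tr _ (lwf B C * lwf B (N' m)))⁻¹ h5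
        rw [smul_smul, inv_mul_cancel₀ hm, one_smul] at h6
        rw [(hbF a).1]
        exact h6
  choose s hs1 hs2 hs3 using key
  refine ⟨Set.range s, Set.finite_range s, ?_, fun hcalg => ?_, fun hS => ?_⟩
  · rintro _ ⟨a, rfl⟩
    exact hs1 a
  · rintro _ ⟨a, rfl⟩
    exact hs2 a hcalg
  · rw [hz']
    exact Submodule.sum_mem _ fun a _ => hs3 a (hS _ ⟨a, rfl⟩)

end Geo

/-- **Tate classes with an arbitrary factor, class by class.** -/
theorem clsf_main [hp : Fact p.Prime] [IsAlgClosed W.K] {σ : W.K →+* ℂ} [Nonempty I]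
    (hRH : ∀ Z, RiemannHyp Φ σ Z) {e : ℕ} (he : ∀ i, Φ.e (X i) = e)
    (hint : ∀ i, HasIntegralPolys Φ σ (X i)) {D : ℕ} (hD : ∀ i, IsSlopeDenominator Φ σ (X i) D)
    {R : ℕ} (hR : RankLe {z | ∃ i, z ∈ eigenvalues Φ σ (X i)} R)
    (h : ∀ i L, (∃ F : Finset I, F.card ≤ R + 1 ∧ ∀ j ∈ i :: L, j ∈ F) →
      ∀ j, j ≤ (prodOf X i L).dim → PoleFormula Φ σ (prodOf X i L) j) :
    ∃ (i0 : I) (L0 : List I), ∀ (ℓ : ℕ) (Z : 𝒱.Obj), Φ.e Z = e → HasIntegralPolys Φ σ Z →
      SlopesLe Φ Z ℓ → ∀ (i : I) (L : List I) (j : ℕ) (c : W.H (Z.prod (prodOf X i L))),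
        IsTate Φ (Z.prod (prodOf X i L)) j c →
          ∃ S : Set (W.H (Z.prod (powerOf X i0 L0 ℓ))), S.Finite ∧
            (∀ s ∈ S, ∃ j', IsTate Φ (Z.prod (powerOf X i0 L0 ℓ)) j' s) ∧
            (IsAlgClass c ↔ ∀ s ∈ S, IsAlgClass s) := by
  classical
  choose ι hfin B lam hB using fun i => exists_ebasis Φ (X i)
  obtain ⟨i1⟩ := ‹Nonempty I›
  have he0 : 0 < e := he i1 ▸ Φ.e_pos _
  have hD0 : 0 < D := (hD i1).1
  have hq1 : 1 < p ^ e := Nat.one_lt_pow he0.ne' hp.out.one_lt
  have hq : ((p ^ e : ℕ) : W.K) ≠ 0 := Nat.cast_ne_zero.2 (by omega)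
  have hroot : ∀ l : Σ i, ι i, (frobPoly Φ σ (X l.1) 1 (dg B l)).IsRoot (σ (lm lam l)) := by
    intro l
    rw [frobPoly_eq]
    exact (root_charpoly (hB l.1) l.2).map
  have hnorm : ∀ l : Σ i, ι i, ‖σ (lm lam l)‖ ^ 2 = ((p ^ e : ℕ) : ℝ) ^ dg B l := by
    intro l
    have h1 := hRH (X l.1) 1 one_pos _ _ (hroot l)
    rw [h1, Pool.Agent.W534.card, mul_one, he]
  have hdual : ∀ l : Σ i, ι i, ∃ l' : Σ i, ι i, l'.1 = l.1 ∧ TM B lam (p ^ e) {l', l} := by
    intro l
    obtain ⟨m, _, h1, h2⟩ := exists_dual (hB l.1) l.2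
    refine ⟨⟨l.1, m⟩, rfl, (X l.1).dim, ?_, 1, one_pos, ?_⟩
    · rw [← h1]
      simp [dg]
    · rw [pow_one, mul_one, ← he l.1, ← h2]
      simp [lm]
  have hne : ∀ l : Σ i, ι i, lm lam l ≠ 0 := by
    intro l h0
    have h1 := hnorm l
    rw [h0, map_zero, norm_zero, zero_pow two_ne_zero] at h1
    have h2 : (0 : ℝ) < ((p ^ e : ℕ) : ℝ) ^ dg B l := by
      have : (0 : ℝ) < ((p ^ e : ℕ) : ℝ) := by exact_mod_cast (zero_lt_one.trans hq1)
      positivity
    exact h2.ne h1
  have hRel : ∀ s : Fin (R + 1) → (Σ i, ι i), ∃ a : Fin (R + 1) → ℤ, a ≠ 0 ∧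
      ∏ i, (lm lam (s i)) ^ a i = 1 := by
    intro s
    obtain ⟨a, ha, h1⟩ := hR (fun i => σ (lm lam (s i))) fun i => ⟨(s i).1, _, hroot (s i)⟩
    refine ⟨a, ha, ?_⟩
    apply σ.injective
    rw [map_one, ← h1, map_prod]
    exact Finset.prod_congr rfl fun i _ => by rw [map_zpow₀]
  have hR' : ∀ s : Fin (R + 1) → (Σ i, ι i), ∃ a : Fin (R + 1) → ℤ, a ≠ 0 ∧
      ∑ i, a i • ucl (un hne (s i)) = 0 := by
    intro s
    obtain ⟨a, ha, h1⟩ := hRel s
    refine ⟨a, ha, ?_⟩
    have h2 : ∏ i, (un hne (s i)) ^ a i = 1 := by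
      apply Units.ext
      rw [Units.val_one, ← h1]
      push_cast
      rfl
    have h3 := congrArg ucl h2
    rw [ucl_prod] at h3
    exact h3
  have hT : ∀ i L, (∃ F : Finset I, F.card ≤ R + 1 ∧ ∀ j ∈ i :: L, j ∈ F) →
      ∀ j, SemisimpleTateIn Φ (prodOf X i L) j := fun i L hF j =>
    semisimple_of_poles (hRH _) (h i L hF) j
  have hall : ∀ M : Multiset (Σ i, ι i), TM B lam (p ^ e) M → Alg B M := fun M hM =>
    alg_of_tm hB he he0 hq hq1 hne hnorm hdual hR' hT hM
  -- the case without letters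
  rcases isEmpty_or_nonempty (Σ i, ι i) with hem | ⟨⟨l0⟩⟩
  · refine ⟨i1, [], fun ℓ Z _ _ _ i L j c hc => ⟨∅, Set.finite_empty, fun s hs =>
      absurd hs (Set.notMem_empty s), fun _ s hs => absurd hs (Set.notMem_empty s), fun _ => ?_⟩⟩
    have h0 : c = 0 := by
      obtain ⟨g⟩ := exists_prj X L i
      have h1 : (1 : W.H (X i)) = 0 := by
        have := Fintype.ofFinite (ι i)
        have h2 := (B i).b.sum_repr 1
        rw [← h2]
        exact Finset.sum_eq_zero fun a _ => (hem.false ⟨i, a⟩).elim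
      have h2 : (1 : W.H (Z.prod (prodOf X i L))) = 0 := by
        have h3 := congrArg (W.map (snd Z _ ≫ g)) h1
        rwa [map_one, map_zero] at h3
      rw [← mul_one c, h2, mul_zero]
    rw [h0]
    exact Submodule.zero_mem _
  have hW : IsWeilFamily p e D (lm lam) (dg B) := isWeilFamily hB (fun i => hRH _) hint hD he
  choose st hst1 hst2 using hdual
  have hpar : ∀ l, Even (dg B (st l) + dg B l) := by
    intro l
    obtain ⟨J, hJ, _⟩ := hst2 l
    have h1 : (({st l, l} : Multiset (Σ i, ι i)).map (dg B)).sum = dg B (st l) + dg B l := by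
      simp
    rw [h1] at hJ
    rw [hJ]
    exact even_two_mul J
  have hst : ∀ l, rwi he0 hW (st l) = - rwi he0 hW l := by
    intro l
    funext ψ
    have h1 := row_of_tm he0 hW (M := {st l, l}) (hst2 l) ψ
    have h2 : (({st l, l} : Multiset (Σ i, ι i)).map fun l => rwi he0 hW l ψ).sum =
      rwi he0 hW (st l) ψ + rwi he0 hW l ψ := by simp
    rw [h2] at h1
    rw [Pi.neg_apply]
    omega
  have hN : ∀ s : Fin (R + 1) → (Σ i, ι i), ∃ a : Fin (R + 1) → ℤ, a ≠ 0 ∧
      ∑ i, a i • rwi he0 hW (s i) = 0 := by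
    intro s
    obtain ⟨a, ha, h1⟩ := hRel s
    refine ⟨a, ha, rows_dep he0 hW s h1 ?_⟩
    have h2 := congrArg (fun x => ‖σ x‖ ^ 2) h1
    have hqpos : (0 : ℝ) < ((p ^ e : ℕ) : ℝ) := by exact_mod_cast (zero_lt_one.trans hq1)
    have h3 : ‖σ (∏ i, (lm lam (s i)) ^ a i)‖ ^ 2 =
        (((p ^ e : ℕ) : ℝ)) ^ (∑ i, a i * (dg B (s i) : ℤ)) := by
      rw [map_prod, norm_prod, ← Finset.prod_pow]
      have h4 : ∀ i, ‖σ ((lm lam (s i)) ^ a i)‖ ^ 2 =
          (((p ^ e : ℕ) : ℝ)) ^ (a i * (dg B (s i) : ℤ)) := by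
        intro i
        rw [map_zpow₀, norm_zpow, ← zpow_natCast, ← zpow_mul, mul_comm (a i) ((2 : ℕ) : ℤ),
          zpow_mul, zpow_natCast, hnorm, ← zpow_natCast, ← zpow_mul, mul_comm (a i)]
      rw [Finset.prod_congr rfl fun i _ => h4 i]
      have h5 : ∀ t : Finset (Fin (R + 1)), ∏ i ∈ t, (((p ^ e : ℕ) : ℝ)) ^ (a i * (dg B (s i) : ℤ)) =
          (((p ^ e : ℕ) : ℝ)) ^ (∑ i ∈ t, a i * (dg B (s i) : ℤ)) := by
        intro t
        induction t using Finset.induction_on with
        | empty => simp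
        | insert b t hb ih =>
          rw [Finset.prod_insert hb, Finset.sum_insert hb, ih, zpow_add₀ hqpos.ne']
      exact h5 _
    rw [h3, map_one, norm_one, one_pow, ← zpow_zero (((p ^ e : ℕ) : ℝ))] at h2
    exact zpow_right_injective₀ hqpos (by exact_mod_cast hq1.ne') h2
  have hz : ∀ l : (Σ i, ι i), HasZ (hd (rwi he0 hW) (dg B)) l.1 := by
    intro l
    by_contra hcon
    have h1 : ∀ a, (B l.1).deg a ≠ 0 := by
      intro a ha
      apply hcon
      refine ⟨a, ?_⟩
      funext o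
      rcases o with ψ | o
      · exact congrFun (rwi_zero he0 hW (l := ⟨l.1, a⟩) ha) ψ
      · change ((dg B ⟨l.1, a⟩ : ℕ) : ℤ) = 0
        rw [dg, ha]
        rfl
    have h2 : ∀ a, (B l.1).b.repr (1 : W.H (X l.1)) a = 0 := fun a =>
      repr_zero (W.isInternal (X l.1)).submodule_iSupIndep (B l.1).b
        (fun a => (B l.1).deg a) (fun a => (B l.1).mem a) (W.one_mem _) (h1 a)
    have h3 : (1 : W.H (X l.1)) = 0 := by
      have := Fintype.ofFinite (ι l.1)
      rw [← (B l.1).b.sum_repr 1]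
      exact Finset.sum_eq_zero fun a _ => by rw [h2, zero_smul]
    apply (B l.1).b.ne_zero l.2
    rw [← mul_one ((B l.1).b l.2), h3, mul_zero]
  obtain ⟨L0, hL0⟩ := exists_productP hN hst hpar D hz l0
  have hcan : ∀ A A' C C' : Multiset (Σ i, ι i), TM B lam (p ^ e) (A + C) →
      TM B lam (p ^ e) (A' + C) → TM B lam (p ^ e) (A' + C') → TM B lam (p ^ e) (A + C') := by
    intro A A' C C' h1 h2 h3
    refine tm_of_rows he0 hD0 hW ?_ fun ψ => ?_
    · obtain ⟨J1, hJ1, _⟩ := h1
      obtain ⟨J2, hJ2, _⟩ := h2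
      obtain ⟨J3, hJ3, _⟩ := h3
      rw [Multiset.map_add, Multiset.sum_add] at hJ1 hJ2 hJ3 ⊢
      rw [Nat.even_iff]
      omega
    · have e1 := row_of_tm he0 hW (M := A + C) h1 ψ
      have e2 := row_of_tm he0 hW (M := A' + C) h2 ψ
      have e3 := row_of_tm he0 hW (M := A' + C') h3 ψ
      rw [Multiset.map_add, Multiset.sum_add] at e1 e2 e3 ⊢
      omega
  have hletE : ∀ l : Σ i, ι i, EigF Φ e (X l.1) (lm lam l) ((B l.1).b l.2) :=
    fun l => eig_letter hB he he0 hall (fun l => ⟨st l, hst1 l, hst2 l⟩) l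
  refine ⟨l0.1, L0, fun ℓ Z heZ hZint hlev i L j0 c hc => ?_⟩
  obtain ⟨κZ, hκZ, BZ, lamZ, hBZ⟩ := exists_ebasis Φ Z
  have hDZ := slopeDenominator (hRH Z) hZint
  set DZ := Φ.e Z * (finrank W.K (W.H Z)).factorial with hDZdef
  have hBE : ∀ o, IsEig Φ (BE B BZ o) (lamE lam lamZ o) := by
    rintro (_ | i)
    · exact hBZ
    · exact hB i
  have heE : ∀ o, Φ.e (XE X Z o) = e := by
    rintro (_ | i)
    · exact heZ
    · exact he i
  have hWE : IsWeilFamily p e (D * DZ) (lm (lamE lam lamZ)) (dg (BE B BZ)) := by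
    refine isWeilFamily hBE (fun o => hRH _) ?_ ?_ heE
    · rintro (_ | i)
      · exact hZint
      · exact hint i
    · rintro (_ | i)
      · show IsSlopeDenominator Φ σ Z (D * DZ)
        rw [mul_comm]
        exact slope_mul hDZ hD0
      · exact slope_mul (hD i) hDZ.1
  have hDE : 0 < D * DZ := Nat.mul_pos hD0 hDZ.1
  -- the rows of the extended family
  have hrho_up : ∀ ψ (l : Σ i, ι i), rho hWE ψ (up l) = rho hW ψ l := fun ψ l => rfl
  have hdg_up : ∀ l : Σ i, ι i, dg (BE B BZ) (up l) = dg B l := fun l => rfl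
  have hsum_up : ∀ ψ (M : Multiset (Σ i, ι i)), ((M.map up).map (rho hWE ψ)).sum =
      (M.map (rho hW ψ)).sum := by
    intro ψ M
    rw [Multiset.map_map]
    rfl
  have hdeg_up : ∀ (M : Multiset (Σ i, ι i)), ((M.map up).map (dg (BE B BZ))).sum =
      (M.map (dg B)).sum := by
    intro M
    rw [Multiset.map_map]
    rfl
  have halg : ∀ (Y : 𝒱.Obj) (x : W.H Y), IsAlgClass x ↔ x ∈ algSpan W Y := by
    intro Y x
    have e : Submodule.span W.K {x | ∃ (i : ℕ) (z : Y.Cycles), Y.IsCyc i z ∧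
        W.cl Y z = x} = algSpan W Y := by
      refine le_antisymm (Submodule.span_le.2 ?_) ?_
      · rintro _ ⟨i, z, hz, rfl⟩
        exact cl_mem_algSpan hz
      · intro c hc
        refine Pool.Agent.W536.RR.algSpan_induction
          (p := fun c => c ∈ Submodule.span W.K {x | ∃ (i : ℕ) (z : Y.Cycles),
            Y.IsCyc i z ∧ W.cl Y z = x}) (Submodule.zero_mem _)
          (fun _ _ => Submodule.add_mem _) (fun _ _ => Submodule.smul_mem _ _)
          (fun j w hw => Submodule.subset_span ⟨j, w, hw, rfl⟩) hc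
    rw [IsAlgClass, e]
  simp only [halg]
  refine clsf_geo hB hBZ he heZ he0 hq hall hletE hne (i0 := l0.1)
    (L' := powL L0 l0.1 ℓ) hcan ?_ i L j0 c hc
  intro z d J μ a M hz hμ hgz0 hμM hdM hM
  have hM' : TMa (p ^ e) (lm (lamE lam lamZ)) (dg (BE B BZ)) (zl a ::ₘ M.map up) := hM
  have hrho : ∀ ψ, rho hWE ψ (zl a) + (M.map (rho hW ψ)).sum = 0 := by
    intro ψ
    have h1 := rho_of_tm he0 hWE hM' ψ
    rwa [Multiset.map_cons, Multiset.sum_cons, hsum_up] at h1
  have hdegM : Even (dg (BE B BZ) (zl a) + (M.map (dg B)).sum) := by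
    obtain ⟨J, hJ, _⟩ := hM'
    rw [Multiset.map_cons, Multiset.sum_cons, hdeg_up] at hJ
    rw [hJ]
    exact even_two_mul J
  -- the slopes
  obtain ⟨n, hn, hn'⟩ := hμ
  have hslope := hlev n d (μ ^ n) z hn hz hgz0 (hn' n n (dvd_refl n) (by rw [heZ]))
  have hbnd : ∀ ψ : Emb W.K p, |(M.map (rho hW ψ)).sum| ≤ (ℓ : ℝ) := by
    intro ψ
    have hMne : (M.map (om hW)).prod ≠ 0 := Multiset.prod_ne_zero fun h0 => by
      obtain ⟨b, _, hb⟩ := Multiset.mem_map.1 h0
      exact om_ne_zero he0 hW b hb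
    let μa : Om W.K := ((p : Om W.K) ^ e) ^ J / (M.map (om hW)).prod
    have hμa : (μa : W.K) = μ := by
      have h1 : (μa : W.K) = ((p : W.K) ^ e) ^ J / (M.map (lm lam)).prod := by
        rw [← coe_mprod hW]
        have h2 := map_div₀ (algebraMap (Om W.K) W.K) (((p : Om W.K) ^ e) ^ J) (M.map (om hW)).prod
        rw [map_pow, map_pow, map_natCast] at h2
        exact h2
      rw [h1, div_eq_iff (by
        rw [← coe_mprod hW]
        intro h0
        apply hMne
        exact Subtype.ext h0), hμM]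
      push_cast
      rfl
    have hμa0 : μa ≠ 0 := div_ne_zero (pow_ne_zero _ (pow_ne_zero _
      (Nat.cast_ne_zero.2 hp.out.ne_zero))) hMne
    have hpne : ((p : Om W.K) ^ e) ≠ 0 := pow_ne_zero _ (Nat.cast_ne_zero.2 hp.out.ne_zero)
    have hv1 : vl e ψ μa + (M.map fun l => vl e ψ (om hW l)).sum = J := by
      rw [← vl_mprod ψ M (om_ne_zero he0 hW), ← vl_mul ψ hμa0 hMne]
      show vl e ψ (((p : Om W.K) ^ e) ^ J / (M.map (om hW)).prod * (M.map (om hW)).prod) = J
      rw [div_mul_cancel₀ _ hMne, vl_pow, vl_q he0, mul_one]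
    have hv2 : (M.map (rho hW ψ)).sum = d - 2 * vl e ψ μa := by
      rw [sum_rho hW]
      have h2 : (d : ℝ) + ((M.map (dg B)).sum : ℕ) = 2 * J := by exact_mod_cast hdM
      have h3 : ((M.map (dg B)).sum : ℝ) = ((M.map (dg B)).sum : ℕ) := rfl
      linarith
    -- the absolute value
    have hroot' : Polynomial.aeval (ψ (μa ^ n)) (minpoly ℚ (μ ^ n)) = 0 := by
      have h4 : minpoly ℚ (μ ^ n) = minpoly ℚ (μa ^ n) := by
        rw [← hμa, ← SubmonoidClass.coe_pow]
        exact minpoly.algebraMap_eq (algebraMap (Om W.K) W.K).injective (μa ^ n)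
      rw [h4, Polynomial.aeval_algHom_apply, minpoly.aeval, map_zero]
    obtain ⟨h5, h6⟩ := hslope _ hroot'
    have hlq := logq_pos (p := p) he0
    have hnorm' : Real.log (‖ψ (μa ^ n)‖ ^ 2) = -(2 * n * vl e ψ μa * Real.log ((p : ℝ) ^ e)) := by
      rw [Real.log_pow]
      have h7 := vl_pow (e := e) ψ (x := μa) n
      rw [vl] at h7
      have h8 : Real.log ‖ψ (μa ^ n)‖ = -(n * vl e ψ μa * Real.log ((p : ℝ) ^ e)) := by
        rw [← h7, neg_mul, div_mul_cancel₀ _ hlq.ne', neg_neg]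
      rw [h8]
      push_cast
      ring
    have hpos2 : 0 < ‖ψ (μa ^ n)‖ ^ 2 := by
      have : ψ (μa ^ n) ≠ 0 := (map_ne_zero ψ).2 (pow_ne_zero _ hμa0)
      positivity
    have hcardpos : (0 : ℝ) < (card Φ Z n : ℝ) := by
      exact_mod_cast card_pos Φ n
    have hlc : Real.log (card Φ Z n : ℝ) = n * Real.log ((p : ℝ) ^ e) := by
      rw [Pool.Agent.W534.card, heZ, pow_mul, Nat.cast_pow, Nat.cast_pow, Real.log_pow]
    have h9 := Real.log_le_log (zpow_pos hcardpos _) h5
    have h10 := Real.log_le_log hpos2 h6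
    rw [Real.log_zpow, hlc, hnorm'] at h9 h10
    have hnpos : (0 : ℝ) < n := by exact_mod_cast hn
    have hc : 0 < (n : ℝ) * Real.log ((p : ℝ) ^ e) := mul_pos hnpos hlq
    have h11 : (2 * vl e ψ μa - d - ℓ) * ((n : ℝ) * Real.log ((p : ℝ) ^ e)) ≤ 0 := by
      push_cast at h9
      linarith
    have h12 : 0 ≤ (2 * vl e ψ μa - d + ℓ) * ((n : ℝ) * Real.log ((p : ℝ) ^ e)) := by
      push_cast at h10
      linarith
    have h13 : 2 * vl e ψ μa - d - ℓ ≤ 0 := by
      by_contra hcon
      push Not at hcon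
      have := mul_pos hcon hc
      linarith
    have h14 : 0 ≤ 2 * vl e ψ μa - d + ℓ := by
      by_contra hcon
      push Not at hcon
      have := mul_neg_of_neg_of_pos hcon hc
      linarith
    rw [hv2, abs_le]
    constructor <;> linarith
  obtain ⟨b, hb1, hb2, hb3⟩ := hL0 (max ℓ 1) M (by
    intro ψ
    have h1 : ((Arb.lam (rwi he0 hW) M ψ : ℤ) : ℝ) = D * (M.map (rho hW ψ)).sum := by
      rw [← sum_rwi he0 hW, lam_apply]
    have h2 : ((|Arb.lam (rwi he0 hW) M ψ| : ℤ) : ℝ) ≤ ((D * (max ℓ 1 : ℕ) : ℤ) : ℝ) := by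
      rw [Int.cast_abs, h1, abs_mul, Nat.abs_cast]
      push_cast
      refine mul_le_mul_of_nonneg_left ?_ (Nat.cast_nonneg D)
      exact (hbnd ψ).trans (le_max_left _ _)
    exact_mod_cast h2) (by
    intro h0
    have := le_max_right ℓ 1
    omega)
  have hpow : powL L0 l0.1 (max ℓ 1) = powL L0 l0.1 ℓ := by
    rcases Nat.eq_zero_or_pos ℓ with h0 | h0
    · rw [h0]
      rfl
    · rw [max_eq_left h0]
  rw [hpow] at hb1
  have hrow : ∀ ψ, (((↑b : Multiset (Σ i, ι i))).map (rho hW ψ)).sum = (M.map (rho hW ψ)).sum := by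
    intro ψ
    have h1 := congrFun hb2 ψ
    rw [lam_apply, lam_apply] at h1
    have h2 := sum_rwi he0 hW ψ (↑b : Multiset (Σ i, ι i))
    rw [h1, sum_rwi] at h2
    exact (mul_left_cancel₀ (Nat.cast_ne_zero.2 hD0.ne') h2).symm
  refine ⟨b, hb1, ?_, fun M0 hM0 => ?_, fun M0 hM0 => ?_⟩
  · refine tm_of_rows he0 hDE hWE ?_ fun ψ => ?_
    · rw [Multiset.map_cons, Multiset.sum_cons, hdeg_up]
      rw [Nat.even_iff] at hdegM hb3 ⊢
      omega
    · have h1 := sum_rwi he0 hWE ψ (zl a ::ₘ (↑b : Multiset (Σ i, ι i)).map up)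
      rw [Multiset.map_cons (rho hWE ψ), Multiset.sum_cons, hsum_up, hrow, hrho, mul_zero] at h1
      exact_mod_cast h1
  · refine tm_of_rows he0 hD0 hW ?_ fun ψ => ?_
    · obtain ⟨J, hJ, _⟩ := hM0
      rw [Multiset.map_add, Multiset.sum_add] at hJ ⊢
      rw [Nat.even_iff] at hb3 ⊢
      omega
    · have h1 := sum_rwi he0 hW ψ (M + M0)
      have h2 := rho_of_tm he0 hW (M := (↑b : Multiset (Σ i, ι i)) + M0) hM0 ψ
      rw [Multiset.map_add, Multiset.sum_add, hrow] at h2
      rw [Multiset.map_add (rho hW ψ), Multiset.sum_add, h2, mul_zero] at h1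
      exact_mod_cast h1
  · refine tm_of_rows he0 hD0 hW ?_ fun ψ => ?_
    · obtain ⟨J, hJ, _⟩ := hM0
      rw [Multiset.map_add, Multiset.sum_add] at hJ ⊢
      rw [Nat.even_iff] at hb3 ⊢
      omega
    · have h1 := sum_rwi he0 hW ψ ((↑b : Multiset (Σ i, ι i)) + M0)
      have h2 := rho_of_tm he0 hW (M := M + M0) hM0 ψ
      rw [Multiset.map_add, Multiset.sum_add, ← hrow] at h2
      rw [Multiset.map_add (rho hW ψ), Multiset.sum_add, h2, mul_zero] at h1
      exact_mod_cast h1

end Pool.Agent.R936.ArbF
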