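import Pool.Agent.R936.Hel.Defs

/-!
# Powers of products of members of a family: definition
-/

open CategoryTheory AlgebraicGeometry

universe u w

namespace Pool.Agent.R936.ArbF

open Pool.Agent.H914 Pool.Agent.R936.Hel

variable {k : Type u} [Field k] {𝒱 : VarClass k} {I : Type w}

/-- The power `Y ^ n` of the product `Y = X i × X j₁ × ⋯ × X jₘ`, where `L = [j₁, ..., jₘ]` (and `Y`
for `n = 0`), written as a product of members of the family. -/
noncomputable def powerOf (X : I → 𝒱.Obj) (i : I) (L : List I) (n : ℕ) : 𝒱.Obj :=
  prodOf X i (L ++ (List.replicate (n - 1) (i :: L)).flatten)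

end Pool.Agent.R936.ArbF
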