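import Pool.Agent.R936.Arb.Dick

/-!
# Bounded vectors with parities are sums of few generators
-/

set_option linter.unusedSectionVars false

namespace Pool.Agent.R936.ArbF

open Pool.Agent.R936.Arb

section

variable {Lt S : Type*} {h : Lt → S → ℤ}

/-- The bounded vectors are sums of few vectors of a finite set, with the same parity. -/
theorem exists_gensP {N : ℕ}
    (hN : ∀ s : Fin (N + 1) → Lt, ∃ a : Fin (N + 1) → ℤ, a ≠ 0 ∧ ∑ i, a i • h (s i) = 0)
    {st : Lt → Lt} (hst : ∀ l, h (st l) = - h l) {dg : Lt → ℕ}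
    (hdg : ∀ l, Even (dg (st l) + dg l)) (D : ℕ) :
    ∃ G : List (Multiset Lt), ∀ (n : ℕ) (M : Multiset Lt), (∀ σ, |lam h M σ| ≤ D * n) →
      (n = 0 → Even (M.map dg).sum) →
      ∃ Ms : List (Multiset Lt), Ms.length ≤ n ∧ (∀ M' ∈ Ms, M' ∈ G) ∧
        (Ms.map (lam h)).sum = lam h M ∧
        Even ((Ms.map fun M' => (M'.map dg).sum).sum + (M.map dg).sum) := by
  classical
  obtain ⟨s, hs⟩ := exists_sep hN
  let φ : Multiset Lt × ℕ → (Option (s × Bool) ⊕ Bool → ℕ) := fun x o =>
    match o with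
    | .inl none => x.2
    | .inl (some (σ, true)) => ((D * x.2 : ℤ) + lam h x.1 σ).toNat
    | .inl (some (σ, false)) => ((D * x.2 : ℤ) - lam h x.1 σ).toNat
    | .inr true => (x.1.map dg).sum % 2
    | .inr false => 1 - (x.1.map dg).sum % 2
  let E : Set (Multiset Lt × ℕ) := {x | 1 ≤ x.2 ∧ ∀ σ ∈ s, |lam h x.1 σ| ≤ D * x.2}
  let P : (Option (s × Bool) ⊕ Bool → ℕ) → Prop := fun a => a ∈ φ '' E
  have hfin : {a | Minimal P a}.Finite := by
    have h1 : IsAntichain (· ≤ ·) {a | Minimal P a} := by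
      intro a ha b hb hab hle
      exact hab (le_antisymm hle (hb.2 ha.1 hle))
    exact WellQuasiOrderedLE.finite_of_isAntichain h1
  have hch : ∀ a : {a | Minimal P a}, ∃ x ∈ E, φ x = a := fun a => a.2.1
  choose g hgE hgφ using hch
  have := hfin.fintype
  refine ⟨(Finset.univ : Finset {a | Minimal P a}).toList.map fun a => (g a).1, ?_⟩
  have hdual : ∀ M : Multiset Lt, Even (((M.map st).map dg).sum + (M.map dg).sum) := by
    intro M
    induction M using Multiset.induction_on with
    | empty => simp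
    | cons a M ih =>
      rw [Multiset.map_cons, Multiset.map_cons, Multiset.sum_cons, Multiset.map_cons,
        Multiset.sum_cons]
      have h1 := (hdg a).add ih
      have h2 : dg (st a) + dg a + (((M.map st).map dg).sum + (M.map dg).sum) =
          dg (st a) + ((M.map st).map dg).sum + (dg a + (M.map dg).sum) := by ring
      rwa [h2] at h1
  have key : ∀ (n : ℕ) (M : Multiset Lt), (M, n) ∈ E →
      ∃ Ms : List (Multiset Lt), Ms.length ≤ n ∧
        (∀ M' ∈ Ms, M' ∈ (Finset.univ : Finset {a | Minimal P a}).toList.map fun a => (g a).1) ∧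
        (Ms.map (lam h)).sum = lam h M ∧
        Even ((Ms.map fun M' => (M'.map dg).sum).sum + (M.map dg).sum) := by
    intro n
    induction n using Nat.strong_induction_on with
    | _ n ih =>
      intro M hM
      obtain ⟨a, ha, ha'⟩ := exists_minimal_le_of_wellFoundedLT P (φ (M, n)) ⟨_, hM, rfl⟩
      obtain ⟨hE1, hE2⟩ := hgE ⟨a, ha'⟩
      have hφ := hgφ ⟨a, ha'⟩
      set x := g ⟨a, ha'⟩ with hx
      have hle : ∀ o, φ x o ≤ φ (M, n) o := fun o => by
        rw [hφ]
        exact ha o
      have hn : x.2 ≤ n := hle (.inl none)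
      have hpar : (x.1.map dg).sum % 2 = (M.map dg).sum % 2 := by
        have h1 : (x.1.map dg).sum % 2 ≤ (M.map dg).sum % 2 := hle (.inr true)
        have h2 : 1 - (x.1.map dg).sum % 2 ≤ 1 - (M.map dg).sum % 2 := hle (.inr false)
        omega
      have hmemG : x.1 ∈ (Finset.univ : Finset {a | Minimal P a}).toList.map
          fun a => (g a).1 := by
        rw [List.mem_map]
        exact ⟨⟨a, ha'⟩, Finset.mem_toList.2 (Finset.mem_univ _), rfl⟩
      have hlam : lam h (M + x.1.map st) = lam h M - lam h x.1 := by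
        rw [lam_add, lam_dual hst, sub_eq_add_neg]
      have hbd : ∀ σ ∈ s, |lam h (M + x.1.map st) σ| ≤ D * ((n - x.2 : ℕ) : ℤ) := by
        intro σ hσ
        have h1 : ((D * x.2 : ℤ) + lam h x.1 σ).toNat ≤ ((D * n : ℤ) + lam h M σ).toNat :=
          hle (.inl (some (⟨σ, hσ⟩, true)))
        have h2 : ((D * x.2 : ℤ) - lam h x.1 σ).toNat ≤ ((D * n : ℤ) - lam h M σ).toNat :=
          hle (.inl (some (⟨σ, hσ⟩, false)))
        have h3 := abs_le.1 (hE2 σ hσ)
        have h4 : -(D * n : ℤ) ≤ lam h M σ ∧ lam h M σ ≤ D * n := abs_le.1 (hM.2 σ hσ)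
        have h5 : lam h (M + x.1.map st) σ = lam h M σ - lam h x.1 σ := congrFun hlam σ
        have h6 : (D : ℤ) * ((n - x.2 : ℕ) : ℤ) = (D * n : ℤ) - D * x.2 := by
          push_cast [hn]
          ring
        rw [h5, abs_le, h6]
        constructor <;> omega
      by_cases h0 : n - x.2 = 0
      · refine ⟨[x.1], ?_, ?_, ?_, ?_⟩
        · rw [List.length_singleton]
          exact hM.1
        · intro M' hM'
          rw [List.mem_singleton.1 hM']
          exact hmemG
        · have h1 := hs (M + x.1.map st) (fun σ hσ => by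
            have h2 := hbd σ hσ
            rw [h0, Nat.cast_zero, mul_zero] at h2
            exact abs_eq_zero.1 (le_antisymm h2 (abs_nonneg _)))
          rw [hlam, sub_eq_zero] at h1
          rw [List.map_singleton, List.sum_singleton, h1]
        · rw [List.map_singleton, List.sum_singleton, Nat.even_iff]
          omega
      · obtain ⟨Ms, h1, h2, h3, h4⟩ := ih (n - x.2) (by omega) (M + x.1.map st)
          ⟨by show 1 ≤ n - x.2; omega, hbd⟩
        refine ⟨x.1 :: Ms, ?_, ?_, ?_, ?_⟩
        · rw [List.length_cons]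
          omega
        · intro M' hM'
          rcases List.mem_cons.1 hM' with rfl | hM'
          · exact hmemG
          · exact h2 M' hM'
        · rw [List.map_cons, List.sum_cons, h3, hlam]
          abel
        · rw [List.map_cons, List.sum_cons]
          rw [Multiset.map_add, Multiset.sum_add, Nat.even_iff] at h4
          have h5 := Nat.even_iff.1 (hdual x.1)
          rw [Nat.even_iff]
          omega
  intro n M hM h0
  rcases Nat.eq_zero_or_pos n with rfl | hn
  · refine ⟨[], le_rfl, fun _ h => absurd h (List.not_mem_nil), ?_, ?_⟩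
    · rw [List.map_nil, List.sum_nil]
      funext σ
      have h1 := hM σ
      rw [Nat.cast_zero, mul_zero] at h1
      exact (abs_eq_zero.1 (le_antisymm h1 (abs_nonneg _))).symm
    · rw [List.map_nil, List.sum_nil, zero_add]
      exact h0 rfl
  · exact key n M ⟨hn, fun σ _ => hM σ⟩

end

/-! ### Realisation -/

variable {I : Type*} {ι : I → Type*} {S : Type*} {h : (Σ i, ι i) → S → ℤ}

/-- The vectors with the degrees. -/
def hd (h : (Σ i, ι i) → S → ℤ) (dg : (Σ i, ι i) → ℕ) (l : Σ i, ι i) : S ⊕ Unit → ℤ :=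
  Sum.elim (h l) fun _ => dg l

lemma lam_hd (dg : (Σ i, ι i) → ℕ) (M : Multiset (Σ i, ι i)) :
    lam (hd h dg) M = Sum.elim (lam h M) fun _ => ((M.map dg).sum : ℤ) := by
  induction M using Multiset.induction_on with
  | empty =>
    funext o
    rcases o with o | o <;> simp [lam]
  | cons a M ih =>
    have h1 : lam (hd h dg) (a ::ₘ M) = hd h dg a + lam (hd h dg) M := by
      rw [lam, Multiset.map_cons, Multiset.sum_cons]
      rfl
    have h2 : lam h (a ::ₘ M) = h a + lam h M := by
      rw [lam, Multiset.map_cons, Multiset.sum_cons]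
      rfl
    rw [h1, ih, h2, Multiset.map_cons, Multiset.sum_cons]
    funext o
    rcases o with o | o
    · rfl
    · change ((dg a : ℕ) : ℤ) + (((M.map dg).sum : ℕ) : ℤ) = ((dg a + (M.map dg).sum : ℕ) : ℤ)
      push_cast
      rfl

/-- **The bounded vectors are the weights of words of one product, with the same parity.** -/
theorem exists_productP {N : ℕ}
    (hN : ∀ s : Fin (N + 1) → (Σ i, ι i), ∃ a : Fin (N + 1) → ℤ, a ≠ 0 ∧
      ∑ i, a i • h (s i) = 0)
    {st : (Σ i, ι i) → (Σ i, ι i)} (hst : ∀ l, h (st l) = - h l) {dg : (Σ i, ι i) → ℕ}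
    (hdg : ∀ l, Even (dg (st l) + dg l)) (D : ℕ)
    (hz : ∀ l : Σ i, ι i, HasZ (hd h dg) l.1) (l0 : Σ i, ι i) :
    ∃ (L0 : List I), ∀ (n : ℕ) (M : Multiset (Σ i, ι i)), (∀ σ, |lam h M σ| ≤ D * n) →
      (n = 0 → Even (M.map dg).sum) →
      ∃ b : List (Σ i, ι i), b.map Sigma.fst = l0.1 :: powL L0 l0.1 n ∧
        lam h ↑b = lam h M ∧ Even (((↑b : Multiset (Σ i, ι i)).map dg).sum + (M.map dg).sum) := by
  classical
  obtain ⟨z0, hz0⟩ := hz l0
  obtain ⟨G, hG⟩ := exists_gensP hN hst hdg D
  let G' : List (List (Σ i, ι i)) := G.map fun M => M.toList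
  refine ⟨(G'.flatten).map Sigma.fst, fun n M hM hM0 => ?_⟩
  obtain ⟨Ms, h1, h2, h3, hpar⟩ := hG n M hM hM0
  set L0 := (G'.flatten).map Sigma.fst with hL0
  have hzL : ∀ i ∈ l0.1 :: L0, HasZ (hd h dg) i := by
    intro i hi
    rcases List.mem_cons.1 hi with rfl | hi
    · exact hz l0
    · obtain ⟨l, _, rfl⟩ := List.mem_map.1 hi
      exact hz l
  have hB : ∀ m ∈ G.map (lam (hd h dg)), ∃ b : List (Σ i, ι i),
      b.map Sigma.fst = l0.1 :: L0 ∧ lamL (hd h dg) b = m := by
    intro m hm
    obtain ⟨M', hM', rfl⟩ := List.mem_map.1 hm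
    obtain ⟨b, h4, h5⟩ := exists_block (h := hd h dg) hz G' M'.toList
      (List.mem_map.2 ⟨M', hM', rfl⟩)
    refine ⟨⟨l0.1, z0⟩ :: b, ?_, ?_⟩
    · rw [List.map_cons, h4]
    · have h6 : lamL (hd h dg) (⟨l0.1, z0⟩ :: b) = hd h dg ⟨l0.1, z0⟩ + lamL (hd h dg) b := by
        rw [lamL, List.map_cons, List.sum_cons]
        rfl
      rw [h6, hz0, zero_add, h5, ← lamL_coe, Multiset.coe_toList]
  -- the sum of the vectors with the degrees
  have hsum : ∀ Ms : List (Multiset (Σ i, ι i)), (Ms.map (lam (hd h dg))).sum =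
      Sum.elim (Ms.map (lam h)).sum fun _ => (((Ms.map fun M' => (M'.map dg).sum).sum : ℕ) : ℤ) := by
    intro Ms
    induction Ms with
    | nil =>
      funext o
      rcases o with o | o <;> simp
    | cons a Ms ih =>
      rw [List.map_cons, List.sum_cons, ih, lam_hd, List.map_cons, List.sum_cons, List.map_cons,
        List.sum_cons]
      funext o
      rcases o with o | o
      · rfl
      · change (((a.map dg).sum : ℕ) : ℤ) + (((Ms.map fun M' => (M'.map dg).sum).sum : ℕ) : ℤ) =
          (((a.map dg).sum + (Ms.map fun M' => (M'.map dg).sum).sum : ℕ) : ℤ)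
        push_cast
        rfl
  have hfin : ∀ b : List (Σ i, ι i), lamL (hd h dg) b = (Ms.map (lam (hd h dg))).sum →
      lam h ↑b = lam h M ∧ Even (((↑b : Multiset (Σ i, ι i)).map dg).sum + (M.map dg).sum) := by
    intro b hb
    rw [← lamL_coe, lam_hd, hsum] at hb
    constructor
    · rw [← h3]
      funext σ
      exact congrFun hb (.inl σ)
    · have h4 := congrFun hb (.inr ())
      have h5 : (((↑b : Multiset (Σ i, ι i)).map dg).sum) =
          (Ms.map fun M' => (M'.map dg).sum).sum := by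
        have h6 : (((((↑b : Multiset (Σ i, ι i)).map dg).sum) : ℕ) : ℤ) =
          (((Ms.map fun M' => (M'.map dg).sum).sum : ℕ) : ℤ) := h4
        exact_mod_cast h6
      rw [h5]
      exact hpar
  rcases Nat.eq_zero_or_pos n with rfl | hn
  · obtain ⟨b, h4, h5⟩ := exists_zero (h := hd h dg) (l0.1 :: powL L0 l0.1 0) (by
      intro i hi
      refine hzL i ?_
      rw [powL, Nat.zero_sub, List.replicate_zero, List.flatten_nil, List.append_nil] at hi
      exact hi)
    have h6 : Ms = [] := List.length_eq_zero_iff.1 (Nat.le_zero.1 h1)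
    exact ⟨b, h4, hfin b (by rw [h5, h6]; rfl)⟩
  · obtain ⟨b, h4, h5⟩ := exists_pow (h := hd h dg) hzL hB n (Ms.map (lam (hd h dg))) (by
      rw [List.length_map]; exact h1) (fun m hm => by
      obtain ⟨M', hM', rfl⟩ := List.mem_map.1 hm
      exact List.mem_map.2 ⟨M', h2 M' hM', rfl⟩)
    refine ⟨b, ?_, hfin b h5⟩
    rw [h4, powL]
    obtain ⟨m, rfl⟩ : ∃ m, n = m + 1 := ⟨n - 1, by omega⟩
    rw [List.replicate_succ, List.flatten_cons, Nat.add_sub_cancel, List.cons_append]

end Pool.Agent.R936.ArbF
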