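import Pool.Agent.R936.ArbF.Fin
import Pool.Agent.R936.Nc.Act
import Pool.Agent.R936.Vh.Lin

/-!
# Eigenvectors of Frobenius endomorphisms over large finite fields
-/

set_option linter.unusedVariables false
set_option linter.unusedSectionVars false

open CategoryTheory AlgebraicGeometry TensorProduct

universe u v w

namespace Pool.Agent.R936.ArbF

open Pool.Agent.H914 Pool.Agent.W534 VarClass Obj WeilCohomology Module
open Pool.Agent.Y163 (HBasis)
open Pool.Agent.R940 (IsEig repr_zero)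
open Pool.Agent.R936.Hel
open Pool.Agent.R936.Arb (zw zw_add zw_smul zw_smul' zw_zero zw_sum zw_ne contr contr_zw)
open Pool.Agent.R936.Vh (dec_unique)
open Pool.Agent.Y133.Half (spanCycles_of_algSpan)
open Pool.Agent.H281R3.HT

variable {k : Type u} [Field k] {𝒱 : VarClass k} {ops : CycleOps 𝒱}
  {W : WeilCohomology.{u, v} ops} {Y Z P Q : 𝒱.Obj} {p : ℕ} {Φ : FrobSystem W p}
  {I : Type w} {X : I → 𝒱.Obj} {ι : I → Type v} {e : ℕ}

/-- The class `x` is an eigenvector of the Frobenius endomorphisms over large finite fields, with the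
eigenvalue `μ ^ n` over the field with `p ^ (e n)` elements. -/
def EigF (Φ : FrobSystem W p) (e : ℕ) (Y : 𝒱.Obj) (μ : W.K) (x : W.H Y) : Prop :=
  ∃ N, 0 < N ∧ ∀ s n, N ∣ n → s * Φ.e Y = n * e → frob Φ Y s x = μ ^ n • x

lemma EigF.mul {μ ν : W.K} {x y : W.H Y} (hx : EigF Φ e Y μ x) (hy : EigF Φ e Y ν y) :
    EigF Φ e Y (μ * ν) (x * y) := by
  obtain ⟨N, hN, h⟩ := hx
  obtain ⟨M, hM, h'⟩ := hy
  refine ⟨N * M, Nat.mul_pos hN hM, fun s n hn hs => ?_⟩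
  rw [Pool.Agent.R940.frob_mul', h s n ((Dvd.intro _ rfl).trans hn) hs,
    h' s n ((Dvd.intro_left _ rfl).trans hn) hs, mul_pow, smul_mul_assoc, mul_smul_comm, smul_smul]

lemma EigF.one : EigF Φ e Y 1 (1 : W.H Y) :=
  ⟨1, one_pos, fun s n _ _ => by rw [Pool.Agent.R940.frob_one', one_pow, one_smul]⟩

lemma exists_frob_map (f : Y ⟶ Z) (e : ℕ) : ∃ N, 0 < N ∧ ∀ s n, N ∣ n → s * Φ.e Y = n * e →
    ∃ s', s' * Φ.e Z = n * e ∧ ∀ x, frob Φ Y s (W.map f x) = W.map f (frob Φ Z s' x) := by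
  obtain ⟨a, b, ha, hb, hab, h⟩ := frob_comm Φ f
  refine ⟨a * Φ.e Y, Nat.mul_pos ha (Φ.e_pos _), fun s n hn hs => ?_⟩
  obtain ⟨t, rfl⟩ := hn
  have h1 : s = a * (t * e) := by
    apply Nat.eq_of_mul_eq_mul_right (Φ.e_pos Y)
    rw [hs]
    ring
  subst h1
  refine ⟨b * (t * e), ?_, fun x => h (t * e) x⟩
  calc b * (t * e) * Φ.e Z = (b * Φ.e Z) * (t * e) := by ring
    _ = (a * Φ.e Y) * (t * e) := by rw [hab]
    _ = a * Φ.e Y * t * e := by ring

lemma EigF.map (f : Y ⟶ Z) {μ : W.K} {x : W.H Z} (hx : EigF Φ e Z μ x) :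
    EigF Φ e Y μ (W.map f x) := by
  obtain ⟨N, hN, h⟩ := hx
  obtain ⟨M, hM, h'⟩ := exists_frob_map (Φ := Φ) f e
  refine ⟨N * M, Nat.mul_pos hN hM, fun s n hn hs => ?_⟩
  obtain ⟨s', hs', h2⟩ := h' s n ((Dvd.intro_left _ rfl).trans hn) hs
  rw [h2, h s' n ((Dvd.intro _ rfl).trans hn) hs', map_smul]

lemma EigF.zw {μ ν : W.K} {z : W.H Z} {x : W.H P} (hz : EigF Φ e Z μ z) (hx : EigF Φ e P ν x) :
    EigF Φ e (Z.prod P) (μ * ν) (zw z x) := (hz.map _).mul (hx.map _)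

lemma EigF.congr {μ μ' : W.K} {r : ℕ} (hr : 0 < r) (hμ : μ ^ r = μ' ^ r) {x : W.H Y}
    (hx : EigF Φ e Y μ x) : EigF Φ e Y μ' x := by
  obtain ⟨N, hN, h⟩ := hx
  refine ⟨N * r, Nat.mul_pos hN hr, fun s n hn hs => ?_⟩
  rw [h s n ((Dvd.intro _ rfl).trans hn) hs]
  obtain ⟨t, rfl⟩ := hn
  rw [show N * r * t = r * (N * t) by ring, pow_mul, hμ, ← pow_mul]

lemma isTate_iff (he0 : 0 < e) {j : ℕ} {c : W.H Y} : IsTate Φ Y j c ↔
    c ∈ W.gr Y (2 * j) ∧ EigF Φ e Y (((p ^ e : ℕ) : W.K) ^ j) c := by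
  constructor
  · rintro ⟨h1, s0, hs0, h2⟩
    refine ⟨h1, s0 * Φ.e Y, Nat.mul_pos hs0 (Φ.e_pos _), fun s n hn hs => ?_⟩
    obtain ⟨t, rfl⟩ := hn
    have h3 : s = s0 * (t * e) := by
      apply Nat.eq_of_mul_eq_mul_right (Φ.e_pos Y)
      rw [hs]
      ring
    subst h3
    have h4 := Pool.Agent.W534.frob_mul Φ h2 (t * e)
    rw [frob_apply, h4]
    congr 1
    push_cast
    rw [← pow_mul, ← pow_mul]
    congr 1
    ring
  · rintro ⟨h1, N, hN, h⟩
    refine ⟨h1, N * e, Nat.mul_pos hN he0, ?_⟩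
    have h2 := h (N * e) (N * Φ.e Y) (Dvd.intro _ rfl) (by ring)
    rw [frob_apply] at h2
    rw [h2]
    congr 1
    push_cast
    rw [← pow_mul, ← pow_mul]
    congr 1
    ring

/-- The components of eigenvectors are eigenvectors. -/
lemma eig_comp (he0 : 0 < e) {κ : Type*} [Fintype κ] (b : Basis κ W.K (W.H P)) {ν : κ → W.K}
    (hν : ∀ a, ν a ≠ 0) (hb : ∀ a, EigF Φ e P (ν a) (b a)) {ρ : W.K} {z : κ → W.H Z}
    (hc : EigF Φ e (Z.prod P) ρ (∑ a, Arb.zw (z a) (b a))) (a : κ) :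
    EigF Φ e Z (ρ / ν a) (z a) := by
  classical
  choose N hN h using hb
  obtain ⟨N0, hN0, h0⟩ := hc
  obtain ⟨N1, hN1, h1⟩ := exists_frob_map (Φ := Φ) (fst Z P) e
  obtain ⟨N2, hN2, h2⟩ := exists_frob_map (Φ := Φ) (snd Z P) e
  have hM : 0 < ∏ a, N a := Finset.prod_pos fun a _ => hN a
  refine ⟨(∏ a, N a) * (N0 * (N1 * (N2 * Φ.e (Z.prod P)))),
    Nat.mul_pos hM (Nat.mul_pos hN0 (Nat.mul_pos hN1 (Nat.mul_pos hN2 (Φ.e_pos _)))),
    fun s n hn hs => ?_⟩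
  have hd0 : ∀ a, N a ∣ n := fun a =>
    ((Finset.dvd_prod_of_mem N (Finset.mem_univ a)).trans (Dvd.intro _ rfl)).trans hn
  have hn' : N0 * (N1 * (N2 * Φ.e (Z.prod P))) ∣ n := (Dvd.intro_left _ rfl).trans hn
  have hd1 : N0 ∣ n := (Dvd.intro _ rfl).trans hn'
  have hn2 : N1 * (N2 * Φ.e (Z.prod P)) ∣ n := (Dvd.intro_left _ rfl).trans hn'
  have hd2 : N1 ∣ n := (Dvd.intro _ rfl).trans hn2
  have hn3 : N2 * Φ.e (Z.prod P) ∣ n := (Dvd.intro_left _ rfl).trans hn2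
  have hd3 : N2 ∣ n := (Dvd.intro _ rfl).trans hn3
  obtain ⟨t, ht⟩ : Φ.e (Z.prod P) ∣ n := (Dvd.intro_left _ rfl).trans hn3
  have hs0 : (t * e) * Φ.e (Z.prod P) = n * e := by rw [ht]; ring
  obtain ⟨s1, hs1, h1'⟩ := h1 _ n hd2 hs0
  obtain ⟨s2, hs2, h2'⟩ := h2 _ n hd3 hs0
  have hs1' : s1 = s := Nat.eq_of_mul_eq_mul_right (Φ.e_pos Z) (hs1.trans hs.symm)
  subst hs1'
  have key := h0 _ n hd1 hs0
  rw [map_sum, Finset.smul_sum] at key
  have key2 : ∑ a, Arb.zw ((ν a) ^ n • frob Φ Z s1 (z a)) (b a) =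
      ∑ a, Arb.zw (ρ ^ n • z a) (b a) := by
    rw [Finset.sum_congr rfl fun a _ => show Arb.zw (ρ ^ n • z a) (b a) = ρ ^ n • Arb.zw (z a) (b a)
      from zw_smul _ _ _, ← key]
    refine Finset.sum_congr rfl fun a _ => ?_
    rw [Arb.zw, Arb.zw, Pool.Agent.R940.frob_mul', h1', h2', h a s2 n (hd0 a) hs2, map_smul,
      map_smul, smul_mul_assoc, mul_smul_comm]
  have key3 := congrFun (dec_unique b key2) a
  rw [div_pow, div_eq_mul_inv, mul_comm, mul_smul, ← key3, smul_smul,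
    inv_mul_cancel₀ (pow_ne_zero _ (hν a)), one_smul]

variable {B : ∀ i, HBasis W (X i) (ι i)} {lam : ∀ i, ι i → W.K}

/-- Letters which occur in algebraic words are eigenvectors. -/
lemma eig_letter [∀ i, Finite (ι i)] (hB : ∀ i, IsEig Φ (B i) (lam i)) (he : ∀ i, Φ.e (X i) = e)
    (he0 : 0 < e) (hAlg : ∀ M, TM B lam (p ^ e) M → Alg B M)
    (hdual : ∀ l : Σ i, ι i, ∃ l' : Σ i, ι i, l'.1 = l.1 ∧ TM B lam (p ^ e) {l', l})
    (l : Σ i, ι i) : EigF Φ e (X l.1) (lm lam l) ((B l.1).b l.2) := by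
  classical
  obtain ⟨⟨i', m⟩, h1, hTM⟩ := hdual l
  obtain ⟨i, a⟩ := l
  dsimp only at h1
  subst h1
  let N0 : List (Lt X ι ((X i').prod (X i'))) :=
    [⟨⟨i', m⟩, fst (X i') (X i')⟩, ⟨⟨i', a⟩, snd (X i') (X i')⟩]
  have e1 : lwf B N0 = Arb.zw ((B i').b m) ((B i').b a) := by
    rw [lwf_cons, lwf_cons, lwf_nil, mul_one]
    rfl
  have h2 : lwf B N0 ∈ algSpan W ((X i').prod (X i')) := hAlg _ hTM _ N0 rfl
  obtain ⟨J, hJ, _⟩ := hTM
  have h3 : lwf B N0 ∈ W.gr ((X i').prod (X i')) (2 * J) := by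
    rw [← hJ]
    have h4 := lwf_gr (B := B) N0
    have h5 : (N0.map fun y => dg B y.1).sum =
        (({⟨i', m⟩, ⟨i', a⟩} : Multiset (Σ i, ι i)).map (dg B)).sum := by
      simp [N0]
    rwa [h5] at h4
  obtain ⟨t, ht, h4⟩ := exists_span_eig Φ ((X i').prod (X i')) J
  have h5 := h4 _ (spanCycles_of_algSpan h2 h3)
  rw [card_pow, frob_apply] at h5
  have h6 : IsTate Φ ((X i').prod (X i')) J (lwf B N0) := ⟨h3, t, ht, h5⟩
  obtain ⟨_, N, hN, h7⟩ := (isTate_iff he0).1 h6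
  obtain ⟨N1, hN1, h8⟩ := exists_frob_map (Φ := Φ) (fst (X i') (X i')) e
  obtain ⟨N2, hN2, h9⟩ := exists_frob_map (Φ := Φ) (snd (X i') (X i')) e
  refine ⟨N * (N1 * (N2 * Φ.e ((X i').prod (X i')))),
    Nat.mul_pos hN (Nat.mul_pos hN1 (Nat.mul_pos hN2 (Φ.e_pos _))), fun s n hn hs => ?_⟩
  have hd1 : N ∣ n := (Dvd.intro _ rfl).trans hn
  have hn2 : N1 * (N2 * Φ.e ((X i').prod (X i'))) ∣ n := (Dvd.intro_left _ rfl).trans hn
  have hd2 : N1 ∣ n := (Dvd.intro _ rfl).trans hn2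
  have hn3 : N2 * Φ.e ((X i').prod (X i')) ∣ n := (Dvd.intro_left _ rfl).trans hn2
  have hd3 : N2 ∣ n := (Dvd.intro _ rfl).trans hn3
  obtain ⟨r, hr⟩ : Φ.e ((X i').prod (X i')) ∣ n := (Dvd.intro_left _ rfl).trans hn3
  have hs0 : (r * e) * Φ.e ((X i').prod (X i')) = n * e := by rw [hr]; ring
  obtain ⟨s1, hs1, h8'⟩ := h8 _ n hd2 hs0
  obtain ⟨s2, hs2, h9'⟩ := h9 _ n hd3 hs0
  have hsn : s = n := by
    rw [he] at hs
    exact Nat.eq_of_mul_eq_mul_right he0 hs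
  rw [hsn] at hs ⊢
  have hs1' : s1 = n := Nat.eq_of_mul_eq_mul_right (Φ.e_pos _) (hs1.trans hs.symm)
  have hs2' : s2 = n := Nat.eq_of_mul_eq_mul_right (Φ.e_pos _) (hs2.trans hs.symm)
  rw [hs1'] at h8'
  rw [hs2'] at h9'
  have key := h7 _ _ hd1 hs0
  rw [e1, Arb.zw, Pool.Agent.R940.frob_mul', h8', h9'] at key
  cases nonempty_fintype (ι i')
  set u := frob Φ (X i') n ((B i').b m) with hu
  set x := frob Φ (X i') n ((B i').b a) with hx
  have hu0 : u ≠ 0 := by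
    intro h0
    apply (B i').b.ne_zero m
    apply frob_pow_injective Φ n 1
    rw [pow_one, map_zero]
    exact h0
  have key2 : ∑ c, Arb.zw ((B i').b.repr x c • u) ((B i').b c) =
      ∑ c, Arb.zw (if c = a then (((p ^ e : ℕ) : W.K) ^ J) ^ n • (B i').b m else 0) ((B i').b c) := by
    have h10 : ∑ c, Arb.zw (if c = a then (((p ^ e : ℕ) : W.K) ^ J) ^ n • (B i').b m else 0)
        ((B i').b c) = (((p ^ e : ℕ) : W.K) ^ J) ^ n • Arb.zw ((B i').b m) ((B i').b a) := by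
      rw [Finset.sum_eq_single a]
      · rw [if_pos rfl, zw_smul]
      · intro c _ hc
        rw [if_neg hc, zw_zero]
      · intro h
        exact absurd (Finset.mem_univ _) h
    rw [h10, Arb.zw, ← key]
    conv_rhs => rw [← (B i').b.sum_repr x, map_sum, Finset.mul_sum]
    refine Finset.sum_congr rfl fun c _ => ?_
    rw [Arb.zw, map_smul, map_smul, smul_mul_assoc, mul_smul_comm]
  have key3 := dec_unique (B i').b key2
  have h11 : x = (B i').b.repr x a • (B i').b a := by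
    conv_lhs => rw [← (B i').b.sum_repr x]
    rw [Finset.sum_eq_single a]
    · intro c _ hc
      have h12 := congrFun key3 c
      beta_reduce at h12
      rw [if_neg hc] at h12
      rcases smul_eq_zero.1 h12 with h | h
      · rw [h, zero_smul]
      · exact absurd h hu0
    · intro h
      exact absurd (Finset.mem_univ _) h
  -- the eigenvalue
  have h13 := gen_mono (frob Φ (X i') 1) (lam i' a) n (hB i' a)
  rw [← frob_mul_eq, one_mul] at h13
  obtain ⟨q, hq⟩ := (Module.End.mem_maxGenEigenspace _ _ _).1 h13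
  set μ := (B i').b.repr x a with hμ
  have h14 : ∀ q : ℕ, ((frob Φ (X i') n - (lam i' a ^ n) • (1 : Module.End W.K (W.H (X i')))) ^ q)
      ((B i').b a) = (μ - lam i' a ^ n) ^ q • (B i').b a := by
    intro q
    induction q with
    | zero => rw [pow_zero, pow_zero, one_smul]; rfl
    | succ q ih =>
      rw [pow_succ', Module.End.mul_apply, ih, map_smul, LinearMap.sub_apply, LinearMap.smul_apply,
        Module.End.one_apply, ← hx, h11, ← sub_smul, smul_smul, pow_succ]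
  rw [h14] at hq
  rcases smul_eq_zero.1 hq with h | h
  · have h15 := eq_zero_of_pow_eq_zero h
    rw [sub_eq_zero] at h15
    show x = lm lam ⟨i', a⟩ ^ n • (B i').b a
    rw [h11, h15]
    rfl
  · exact absurd h ((B i').b.ne_zero a)

/-- Words are eigenvectors. -/
lemma eig_word (hlet : ∀ l : Σ i, ι i, EigF Φ e (X l.1) (lm lam l) ((B l.1).b l.2))
    (N : List (Lt X ι Y)) : EigF Φ e Y ((N.map fun y => lm lam y.1).prod) (lwf B N) := by
  induction N with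
  | nil => exact EigF.one
  | cons y N ih =>
    rw [lwf_cons, List.map_cons, List.prod_cons]
    exact ((hlet y.1).map y.2).mul ih

end Pool.Agent.R936.ArbF
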