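import Pool.Agent.R936.ArbF.Rows
import Pool.Agent.R936.Arb.Geo
import Pool.Agent.R936.Hel.Main

/-!
# Tate classes on products with an arbitrary factor
-/

set_option linter.unusedVariables false
set_option linter.unusedSectionVars false

open CategoryTheory AlgebraicGeometry TensorProduct

universe u v w

namespace Pool.Agent.R936.ArbF

open Pool.Agent.H914 Pool.Agent.W534 VarClass Obj WeilCohomology Module
open Pool.Agent.Y163 (HBasis genU mem_genU prod_perm)
open Pool.Agent.Y133.Half (spanCycles_of_algSpan algSys)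
open Pool.Agent.R940 (IsEig repr_zero)
open Pool.Agent.R936.Hel
open Pool.Agent.R936.Arb (zw zw_add zw_smul zw_zero zw_sum contr contr_zw)
open Pool.Agent.W536.RR (algSpan_map algSpan_mul one_mem_algSpan algSpan_push)
open Pool.Agent.H281R3.HT

variable {k : Type u} [Field k] {𝒱 : VarClass k} {ops : CycleOps 𝒱}
  {W : WeilCohomology.{u, v} ops} {Y Z P Q : 𝒱.Obj} {p : ℕ} {Φ : FrobSystem W p}
  {I : Type w} {X : I → 𝒱.Obj} {ι : I → Type v} {κZ : Type v}

/-- The extended family. -/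
abbrev XE (X : I → 𝒱.Obj) (Z : 𝒱.Obj) : Option I → 𝒱.Obj
  | none => Z
  | some i => X i

/-- The extended family of letters. -/
abbrev ιE (ι : I → Type v) (κZ : Type v) : Option I → Type v
  | none => κZ
  | some i => ι i

/-- The extended family of bases. -/
def BE (B : ∀ i, HBasis W (X i) (ι i)) (BZ : HBasis W Z κZ) :
    ∀ o, HBasis W (XE X Z o) (ιE ι κZ o)
  | none => BZ
  | some i => B i

/-- The extended family of eigenvalues. -/
def lamE (lam : ∀ i, ι i → W.K) (lamZ : κZ → W.K) : ∀ o, ιE ι κZ o → W.K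
  | none => lamZ
  | some i => lam i

/-- The letters of the family. -/
def up (l : Σ i, ι i) : Σ o, ιE ι κZ o := ⟨some l.1, l.2⟩

/-- The letters of `Z`. -/
def zl (i : κZ) : Σ o, ιE ι κZ o := ⟨none, i⟩

/-- The letters with morphisms. -/
def upL {T : 𝒱.Obj} (y : Lt X ι T) : Lt (XE X Z) (ιE ι κZ) T := ⟨up y.1, y.2⟩

variable {B : ∀ i, HBasis W (X i) (ι i)} {BZ : HBasis W Z κZ} {lam : ∀ i, ι i → W.K}
  {lamZ : κZ → W.K}

lemma lwf_up {T : 𝒱.Obj} (N : List (Lt X ι T)) : lwf (BE B BZ) (N.map upL) = lwf B N := by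
  induction N with
  | nil => rfl
  | cons y N ih =>
    rw [List.map_cons, lwf_cons, lwf_cons, ih]
    rfl

lemma map_up_fst {T : 𝒱.Obj} (N : List (Lt X ι T)) :
    (N.map (upL (Z := Z) (κZ := κZ))).map Sigma.fst = (N.map Sigma.fst).map up := by
  rw [List.map_map, List.map_map]
  rfl

lemma tm_up {q : ℕ} {M : Multiset (Σ i, ι i)} :
    TM (BE B BZ) (lamE lam lamZ) q (M.map up) ↔ TM B lam q M := by
  rw [TM, TM, Multiset.map_map, Multiset.map_map]
  rfl

/-- The word `z ⊗ w`. -/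
lemma lwf_zw (i : κZ) (N : List (Lt X ι P)) :
    lwf (BE B BZ) ((⟨zl i, fst Z P⟩ : Lt (XE X Z) (ιE ι κZ) (Z.prod P)) ::
      pull (snd Z P) (N.map upL)) = zw (BZ.b i) (lwf B N) := by
  rw [lwf_cons, ← map_lwf, lwf_up]
  rfl

/-- A basis of words on `Z × P`. -/
lemma words_prod [Finite κZ] (hP : HasWords B P) :
    ∃ (κ : Type v) (_ : Finite κ) (N : κ → List (Lt X ι P))
      (b : Module.Basis (κZ × κ) W.K (W.H (Z.prod P)))
      (F : List (Σ j, (Z.prod P ⟶ XE X Z j))), ∀ x, b x = zw (BZ.b x.1) (lwf B (N x.2)) ∧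
        ∀ y ∈ ((⟨zl x.1, fst Z P⟩ : Lt (XE X Z) (ιE ι κZ) (Z.prod P)) ::
          pull (snd Z P) ((N x.2).map upL)), (⟨y.1.1, y.2⟩ : Σ j, (Z.prod P ⟶ XE X Z j)) ∈ F := by
  obtain ⟨κ, hκ, b, F, N, h⟩ := hP
  refine ⟨κ, hκ, N, (BZ.b.tensorProduct b).map (kappa W Z P),
    ⟨none, fst Z P⟩ :: F.map (fun x => ⟨some x.1, snd Z P ≫ x.2⟩), fun x => ⟨?_, ?_⟩⟩
  · rw [Module.Basis.map_apply, Module.Basis.tensorProduct_apply', kappa_tmul, ← (h x.2).1]
    rfl
  · intro y hy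
    rcases List.mem_cons.1 hy with rfl | hy
    · exact List.mem_cons_self
    · apply List.mem_cons_of_mem
      obtain ⟨z, hz, rfl⟩ := List.mem_map.1 hy
      obtain ⟨z', hz', rfl⟩ := List.mem_map.1 hz
      exact List.mem_map.2 ⟨_, (h x.2).2 z' hz', rfl⟩

/-- The eigenvalue of a class with nonzero trace. -/
lemma eig_of_tr {s : ℕ} {μ : W.K} {x : W.H Y} (hx : x ∈ (frob Φ Y s).maxGenEigenspace μ)
    (h : W.tr Y x ≠ 0) : μ = ((card Φ Y s : ℕ) : W.K) ^ Y.dim := by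
  obtain ⟨n, hn⟩ := (Module.End.mem_maxGenEigenspace _ _ _).1 hx
  have key : ∀ (n : ℕ) (y : W.H Y), W.tr Y (((frob Φ Y s - μ • (1 : Module.End W.K (W.H Y))) ^ n) y) =
      (((card Φ Y s : ℕ) : W.K) ^ Y.dim - μ) ^ n * W.tr Y y := by
    intro n
    induction n with
    | zero => intro y; rw [pow_zero, pow_zero, one_mul]; rfl
    | succ n ih =>
      intro y
      rw [pow_succ, Module.End.mul_apply, ih, LinearMap.sub_apply, LinearMap.smul_apply,
        Module.End.one_apply, map_sub, map_smul, frob_apply, tr_iter, smul_eq_mul, pow_succ,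
        ← card_pow]
      ring
  have h1 := key n x
  rw [hn, map_zero] at h1
  rcases mul_eq_zero.1 h1.symm with h2 | h2
  · exact (sub_eq_zero.1 (eq_zero_of_pow_eq_zero h2)).symm
  · exact absurd h2 h

/-- Words with nonzero trace are Tate words. -/
lemma tm_of_tr (hB : ∀ i, IsEig Φ (B i) (lam i)) {e : ℕ} (he : ∀ i, Φ.e (X i) = e) (he0 : 0 < e)
    {C N : List (Lt X ι Y)} (h : W.tr Y (lwf B C * lwf B N) ≠ 0) :
    TM B lam (p ^ e) (↑(C.map Sigma.fst) + ↑(N.map Sigma.fst)) := by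
  rw [← lwf_append] at h
  have h0 : (↑(C.map Sigma.fst) + ↑(N.map Sigma.fst) : Multiset (Σ i, ι i)) =
      ↑((C ++ N).map Sigma.fst) := by
    rw [List.map_append, Multiset.coe_add]
  rw [h0]
  generalize C ++ N = N at h
  obtain ⟨S, S', hS, hS', hSS, h1⟩ := frob_lt Φ he he0 (mor N)
  refine ⟨Y.dim, ?_, S', hS', ?_⟩
  · rw [Multiset.map_coe, List.map_map, Multiset.sum_coe]
    by_contra hne
    exact h (W.tr_eq_zero (lwf_gr N) hne)
  · have h3 := lwf_gen hB N (fun y hy => h1 _ (List.mem_map.2 ⟨y, hy, rfl⟩)) 1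
    have h4 := eig_of_tr h3 h
    rw [mul_one, mul_one] at h4
    rw [Multiset.map_coe, List.map_map, Multiset.prod_coe]
    refine Eq.trans h4 ?_
    rw [Pool.Agent.W534.card, ← Nat.cast_pow, ← pow_mul, ← pow_mul]
    congr 2
    calc Φ.e Y * S * Y.dim = (S * Φ.e Y) * Y.dim := by ring
      _ = e * (Y.dim * S') := by rw [hSS]; ring

/-- Generalised Tate words are algebraic if the pole formula holds. -/
lemma alg_of_word (hB : ∀ i, IsEig Φ (B i) (lam i)) {e : ℕ} (he : ∀ i, Φ.e (X i) = e)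
    (he0 : 0 < e) (hY : ∀ j, SemisimpleTateIn Φ Y j) {N : List (Lt X ι Y)}
    (hN : TM B lam (p ^ e) ↑(N.map Sigma.fst)) : lwf B N ∈ algSpan W Y := by
  obtain ⟨J, hJ⟩ := lwf_genU hB he he0 N hN
  obtain ⟨s, hs, hJ'⟩ := (mem_genU Φ).1 hJ
  exact span_le_algSpan (hY J s hs hJ')

/-- **Tate classes on products with an arbitrary factor.** -/
theorem arb_geo [∀ i, Finite (ι i)] [Finite κZ] (hB : ∀ i, IsEig Φ (B i) (lam i))
    (hBZ : IsEig Φ BZ lamZ) {e : ℕ} (he : ∀ i, Φ.e (X i) = e) (heZ : Φ.e Z = e) (he0 : 0 < e)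
    (hAlg : ∀ M, TM B lam (p ^ e) M → Alg B M) {i0 : I} {L' : List I}
    (hb : ∀ (i : κZ) (M : Multiset (Σ i, ι i)),
      TM (BE B BZ) (lamE lam lamZ) (p ^ e) (zl i ::ₘ M.map up) →
      ∃ b : List (Σ i, ι i), b.map Sigma.fst = i0 :: L' ∧
        TM (BE B BZ) (lamE lam lamZ) (p ^ e) (zl i ::ₘ (↑b : Multiset (Σ i, ι i)).map up) ∧
        ∀ M0, TM B lam (p ^ e) (↑b + M0) → TM B lam (p ^ e) (M + M0))
    (hZ : ∀ j, SemisimpleTateIn Φ (Z.prod (prodOf X i0 L')) j) (i : I) (L : List I) :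
    ∀ j, SemisimpleTateIn Φ (Z.prod (prodOf X i L)) j := by
  intro J s hs c hc
  have hBE : ∀ o, IsEig Φ (BE B BZ o) (lamE lam lamZ o) := by
    rintro (_ | i)
    · exact hBZ
    · exact hB i
  have heE : ∀ o, Φ.e (XE X Z o) = e := by
    rintro (_ | i)
    · exact heZ
    · exact he i
  have hwords := hasWords_prod (X := X) B (fun i => inferInstance)
  obtain ⟨κ, hκ, N, b, F, hbF⟩ := words_prod (BZ := BZ) (Z := Z) (hwords L i)
  have hbl : ∀ x, b x = lwf (BE B BZ) ((⟨zl x.1, fst Z _⟩ : Lt (XE X Z) (ιE ι κZ) (Z.prod _)) ::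
      pull (snd Z _) ((N x.2).map upL)) := fun x => by rw [lwf_zw, (hbF x).1]
  refine spanCycles_of_algSpan ?_ hc.2
  have := Fintype.ofFinite (κZ × κ)
  rw [← b.sum_repr c]
  refine Submodule.sum_mem _ fun x _ => ?_
  by_cases h0 : b.repr c x = 0
  · rw [h0, zero_smul]
    exact Submodule.zero_mem _
  refine Submodule.smul_mem _ _ ?_
  have hTM := tm_of_repr hBE hbl (by
    obtain ⟨S, S', hS, hS', hSS, h1⟩ := frob_lt Φ heE he0 F
    exact ⟨S, S', hS, hS', hSS, fun a y hy t x => h1 _ ((hbF a).2 y hy) t x⟩) hs hc h0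
  have hTM' : TM (BE B BZ) (lamE lam lamZ) (p ^ e)
      (zl x.1 ::ₘ (↑((N x.2).map Sigma.fst) : Multiset (Σ i, ι i)).map up) := by
    rw [List.map_cons, pull_fst, map_up_fst, ← Multiset.cons_coe] at hTM
    exact hTM
  obtain ⟨b1, hb1, hb2, hb3⟩ := hb x.1 _ hTM'
  match b1, hb1, hb2, hb3 with
  | l :: b2, hb1, hb2, hb3 =>
    rw [List.map_cons] at hb1
    obtain ⟨h1, h2⟩ := List.cons.inj hb1
    subst h1
    subst h2
    obtain ⟨C, hC1, hC2, _⟩ := isCan_prod hB b2 l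
    have hmem : zw (BZ.b x.1) (lwf B C) ∈ algSpan W (Z.prod (prodOf X l.1 (b2.map Sigma.fst))) := by
      rw [← lwf_zw]
      refine alg_of_word hBE heE he0 hZ ?_
      rw [List.map_cons, pull_fst, map_up_fst, hC1, ← Multiset.cons_coe]
      exact hb2
    obtain ⟨κ', hκ', b', F', N', hN'⟩ := hwords (b2.map Sigma.fst) l.1
    obtain ⟨m, hm⟩ := exists_dualv b' hC2
    rw [(hN' m).1] at hm
    have hT1 := tm_of_tr hB he he0 hm
    rw [hC1] at hT1
    have hT2 := hb3 _ hT1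
    have hword : zw (lwf B (N' m)) (lwf B (N x.2)) ∈
        algSpan W ((prodOf X l.1 (b2.map Sigma.fst)).prod (prodOf X i L)) := by
      rw [zw, map_lwf, map_lwf, ← lwf_append]
      refine hAlg _ hT2 _ _ ?_
      rw [List.map_append, pull_fst, pull_fst, ← Multiset.coe_add, add_comm]
    have h5 : contr (zw (BZ.b x.1) (lwf B C)) (zw (lwf B (N' m)) (lwf B (N x.2))) ∈
        algSpan W (Z.prod (prodOf X i L)) :=
      algSpan_push _ (algSpan_mul (algSpan_map _ hmem) (algSpan_map _ hword))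
    rw [contr_zw (lwf_gr _) (lwf_gr _)] at h5
    have h6 := Submodule.smul_mem _ (W.tr _ (lwf B C * lwf B (N' m)))⁻¹ h5
    rw [smul_smul, inv_mul_cancel₀ hm, one_smul] at h6
    rw [(hbF x).1]
    exact h6

end Pool.Agent.R936.ArbF
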