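import Pool.Agent.R936.ArbF.Defs
import Pool.Agent.R940.UDefs

/-!
# The noncommutative Tate conjecture: definitions
-/

open CategoryTheory AlgebraicGeometry

universe u v w

namespace Pool.Agent.R936.ArbF

open Pool.Agent.H914 Pool.Agent.W534 VarClass Obj WeilCohomology Polynomial

variable {k : Type u} [Field k] {𝒱 : VarClass k} {ops : CycleOps 𝒱}

/-- The image of the class `c` on `Z × P` under the correspondence `γ` (on `Z × Z`) times the diagonal
of `P`: the push-forward along `(z, z', p) ↦ (z', p)` of the product of the pull-backs of `γ` and `c`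
along `(z, z', p) ↦ (z', z)` and `(z, z', p) ↦ (z, p)`. -/
noncomputable def comp {W : WeilCohomology.{u, v} ops} {Z P : 𝒱.Obj} (γ : W.H (Z.prod Z))
    (c : W.H (Z.prod P)) : W.H (Z.prod P) :=
  W.push (snd Z (Z.prod P))
    (W.map (Obj.lift (snd Z (Z.prod P) ≫ fst Z P) (fst Z (Z.prod P))) γ *
      W.map (Obj.lift (fst Z (Z.prod P)) (snd Z (Z.prod P) ≫ snd Z P)) c)

/-- The images under `γ` of all Tate classes on `Z × P` (the classes of degree `2 j` on which the
Frobenius endomorphism relative to a large finite field acts as the multiplication by the `j`-th power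
of its number of elements) are linear combinations of classes of algebraic cycles on `Z × P`. If `γ` is
the Mukai vector of the kernel of the projection of `D(Z)` to an admissible subcategory `𝒞`, then this is
the noncommutative Tate conjecture for the admissible subcategory `𝒞 ⊠ D(P)` of `D(Z × P)`. -/
def NcTate {W : WeilCohomology.{u, v} ops} {p : ℕ} (Φ : FrobSystem W p) {Z : 𝒱.Obj}
    (γ : W.H (Z.prod Z)) (P : 𝒱.Obj) : Prop :=
  ∀ (j : ℕ) (c : W.H (Z.prod P)), IsTate Φ (Z.prod P) j c →
    comp γ c ∈ Submodule.span W.K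
      {x | ∃ (i : ℕ) (z : (Z.prod P).Cycles), (Z.prod P).IsCyc i z ∧ W.cl (Z.prod P) z = x}

/-- The slopes of the number `μ` of weight `d`, relative to `q`, the `s` such that some `p`-adic root
of the minimal polynomial of `μ` has the absolute value `q ^ (-s)`, satisfy `|2 s - d| ≤ ℓ`. -/
def SlopesWithin {K : Type v} [Field K] [CharZero K] (p : ℕ) [Fact p.Prime] (q : ℕ) (μ : K)
    (d ℓ : ℕ) : Prop :=
  ∀ y : PadicAlgCl p, aeval y (minpoly ℚ μ) = 0 →
    (q : ℝ) ^ (-((d : ℤ) + ℓ)) ≤ ‖y‖ ^ 2 ∧ ‖y‖ ^ 2 ≤ (q : ℝ) ^ (-((d : ℤ) - ℓ))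

/-- The correspondence `γ` on `Z × Z` kills all eigenvectors of Frobenius endomorphisms in the
cohomology groups `H^d(Z)` (more precisely their pull-backs to the products `Z × P`) for which a slope
`s` of the eigenvalue satisfies `|2 s - d| > ℓ`. -/
def SlopeLevelLe {W : WeilCohomology.{u, v} ops} {p : ℕ} [Fact p.Prime] (Φ : FrobSystem W p)
    {Z : 𝒱.Obj} (γ : W.H (Z.prod Z)) (ℓ : ℕ) : Prop :=
  ∀ (s d : ℕ) (μ : W.K) (z : W.H Z), 0 < s → z ∈ W.gr Z d →
    W.map (iter (Φ.Fr Z) s) z = μ • z → ¬ SlopesWithin p (card Φ Z s) μ d ℓ →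
      ∀ P : 𝒱.Obj, comp γ (W.map (fst Z P) z) = 0

end Pool.Agent.R936.ArbF
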