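import Pool.Agent.R936.ArbF.Eig
import Pool.Agent.R936.ArbF.NcDefs

/-!
# The noncommutative Tate conjecture with an arbitrary factor
-/

set_option linter.unusedVariables false
set_option linter.unusedSectionVars false

open CategoryTheory AlgebraicGeometry TensorProduct

universe u v w

namespace Pool.Agent.R936.ArbF

open Pool.Agent.H914 Pool.Agent.W534 VarClass Obj WeilCohomology Module
open Pool.Agent.Y163 (HBasis genU mem_genU prod_perm)
open Pool.Agent.R940 (IsEig repr_zero root_charpoly exists_ebasis pole_of_semisimple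
  semisimple_of_poles IsWeilFamily weilFamily HasIntegralPolys IsSlopeDenominator slopeDenominator
  deg_le)
open Pool.Agent.R936.Hel
open Pool.Agent.R936.Arb (powL HasZ zw zw_add zw_smul zw_smul' zw_zero zw_sum zw_ne contr contr_zw
  exists_dec contr_sum)
open Pool.Agent.R936.Nc (exists_act contr_add_right contr_smul_right contr_zero_right)
open Pool.Agent.Y133.Half (spanCycles_of_algSpan algSys)
open Pool.Agent.W536.RR (algSpan_map algSpan_mul one_mem_algSpan algSpan_push cl_mem_algSpan)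
open Pool.Agent.H281R3.HT

variable {k : Type u} [Field k] {𝒱 : VarClass k} {ops : CycleOps 𝒱}
  {W : WeilCohomology.{u, v} ops} {Y Z P Q : 𝒱.Obj} {p : ℕ} {Φ : FrobSystem W p}
  {I : Type w} {X : I → 𝒱.Obj} {ι : I → Type v} {κZ : Type v}

section Geo

variable {B : ∀ i, HBasis W (X i) (ι i)} {BZ : HBasis W Z κZ} {lam : ∀ i, ι i → W.K}
  {lamZ : κZ → W.K}

/-- **The images of the Tate classes under a correspondence.** -/
theorem ncf_geo [∀ i, Finite (ι i)] [Finite κZ] (hB : ∀ i, IsEig Φ (B i) (lam i))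
    (hBZ : IsEig Φ BZ lamZ) {e : ℕ} (he : ∀ i, Φ.e (X i) = e) (heZ : Φ.e Z = e) (he0 : 0 < e)
    (hp0 : ((p ^ e : ℕ) : W.K) ≠ 0)
    (hAlg : ∀ M, TM B lam (p ^ e) M → Alg B M)
    (hlet : ∀ l : Σ i, ι i, EigF Φ e (X l.1) (lm lam l) ((B l.1).b l.2))
    (hne : ∀ l : Σ i, ι i, lm lam l ≠ 0) {i0 : I} {L' : List I}
    {γ : W.H (Z.prod Z)} {g : W.H Z →ₗ[W.K] W.H Z}
    (hg : ∀ (P : 𝒱.Obj) (z : W.H Z) (x : W.H P), contr γ (zw z x) = zw (g z) x)
    (hb : ∀ (z : W.H Z) (d J : ℕ) (μ : W.K) (i : κZ) (M : Multiset (Σ i, ι i)), z ∈ W.gr Z d →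
      EigF Φ e Z μ z → g z ≠ 0 → μ * (M.map (lm lam)).prod = ((p ^ e : ℕ) : W.K) ^ J →
      d + (M.map (dg B)).sum = 2 * J →
      TM (BE B BZ) (lamE lam lamZ) (p ^ e) (zl i ::ₘ M.map up) →
      ∃ b : List (Σ i, ι i), b.map Sigma.fst = i0 :: L' ∧
        TM (BE B BZ) (lamE lam lamZ) (p ^ e) (zl i ::ₘ (↑b : Multiset (Σ i, ι i)).map up) ∧
        ∀ M0, TM B lam (p ^ e) (↑b + M0) → TM B lam (p ^ e) (M + M0))
    (hZ : ∀ j (c : W.H (Z.prod (prodOf X i0 L'))), IsTate Φ (Z.prod (prodOf X i0 L')) j c →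
      contr γ c ∈ algSpan W (Z.prod (prodOf X i0 L'))) (i : I) (L : List I) (J : ℕ)
    (c : W.H (Z.prod (prodOf X i L))) (hc : IsTate Φ (Z.prod (prodOf X i L)) J c) :
    contr γ c ∈ algSpan W (Z.prod (prodOf X i L)) := by
  classical
  have hBE : ∀ o, IsEig Φ (BE B BZ o) (lamE lam lamZ o) := by
    rintro (_ | i)
    · exact hBZ
    · exact hB i
  have heE : ∀ o, Φ.e (XE X Z o) = e := by
    rintro (_ | i)
    · exact heZ
    · exact he i
  obtain ⟨s, hs, hcg⟩ := hc.mem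
  obtain ⟨hcgr, hcE⟩ := (isTate_iff he0).1 hc
  have hwords := hasWords_prod (X := X) B (fun i => inferInstance)
  obtain ⟨κ, hκ, b, F, N, hbF⟩ := hwords L i
  cases nonempty_fintype κ
  cases nonempty_fintype κZ
  let bb := (BZ.b.tensorProduct b).map (kappa W Z (prodOf X i L))
  have hbb : ∀ x, bb x = zw (BZ.b x.1) (lwf B (N x.2)) := by
    intro x
    rw [Module.Basis.map_apply, Module.Basis.tensorProduct_apply', kappa_tmul, ← (hbF x.2).1]
    rfl
  let z : κ → W.H Z := fun a => ∑ j, bb.repr c (j, a) • BZ.b j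
  have hz' : c = ∑ a, zw (z a) (b a) := by
    conv_lhs => rw [← bb.sum_repr c]
    rw [Fintype.sum_prod_type_right]
    refine Finset.sum_congr rfl fun a _ => ?_
    show _ = zw (∑ j, bb.repr c (j, a) • BZ.b j) (b a)
    rw [zw_sum]
    exact Finset.sum_congr rfl fun j _ => by rw [zw_smul, hbb, ← (hbF a).1]
  have hbl : ∀ x, bb x = lwf (BE B BZ) ((⟨zl x.1, fst Z _⟩ : Lt (XE X Z) (ιE ι κZ) (Z.prod _)) ::
      pull (snd Z _) ((N x.2).map upL)) := fun x => by rw [lwf_zw, hbb]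
  -- the words which occur
  have hocc : ∀ j a, bb.repr c (j, a) ≠ 0 → TM (BE B BZ) (lamE lam lamZ) (p ^ e)
      (zl j ::ₘ (↑((N a).map Sigma.fst) : Multiset (Σ i, ι i)).map up) := by
    intro j a h0
    have hTM := tm_of_repr hBE hbl (by
      let F' : List (Σ o, (Z.prod (prodOf X i L) ⟶ XE X Z o)) :=
        ⟨none, fst Z (prodOf X i L)⟩ ::
          F.map (fun x => ⟨some x.1, snd Z (prodOf X i L) ≫ x.2⟩)
      obtain ⟨S, S', hS, hS', hSS, h1⟩ := frob_lt Φ heE he0 F'
      refine ⟨S, S', hS, hS', hSS, fun x y hy t w => h1 ⟨y.1.1, y.2⟩ ?_ t w⟩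
      rcases List.mem_cons.1 hy with rfl | hy
      · exact List.mem_cons_self
      · apply List.mem_cons_of_mem
        obtain ⟨z, hz, rfl⟩ := List.mem_map.1 hy
        obtain ⟨z', hz', rfl⟩ := List.mem_map.1 hz
        exact List.mem_map.2 ⟨_, (hbF x.2).2 z' hz', rfl⟩) hs hcg h0
    rw [List.map_cons, pull_fst, map_up_fst, ← Multiset.cons_coe] at hTM
    exact hTM
  have hdeg : ∀ j a, bb.repr c (j, a) ≠ 0 →
      BZ.deg j + ((N a).map fun y => dg B y.1).sum = 2 * J := by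
    intro j a h0
    by_contra hne'
    apply h0
    refine repr_zero (W.isInternal _).submodule_iSupIndep bb
      (fun x => BZ.deg x.1 + ((N x.2).map fun y => dg B y.1).sum) (fun x => ?_) hcgr hne'
    rw [hbb]
    exact W.mul_mem (W.map_mem _ (BZ.mem _)) (W.map_mem _ (lwf_gr _))
  -- the words are eigenvectors
  have hν : ∀ a, ((N a).map fun y => lm lam y.1).prod ≠ 0 := by
    intro a h0
    obtain ⟨y, _, hy⟩ := List.mem_map.1 (List.prod_eq_zero_iff.1 h0)
    exact hne _ hy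
  have hbE : ∀ a, EigF Φ e (prodOf X i L) (((N a).map fun y => lm lam y.1).prod) (b a) := by
    intro a
    rw [(hbF a).1]
    exact eig_word hlet _
  have hzE := fun a => eig_comp he0 b hν hbE (z := z) (by rw [← hz']; exact hcE) a
  have hzg : ∀ a j, bb.repr c (j, a) ≠ 0 → z a ∈ W.gr Z (BZ.deg j) := by
    intro a j h0
    refine Submodule.sum_mem _ fun j' _ => ?_
    by_cases h1 : bb.repr c (j', a) = 0
    · rw [h1, zero_smul]
      exact Submodule.zero_mem _
    · have h2 : BZ.deg j' = BZ.deg j := by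
        have := hdeg j a h0
        have := hdeg j' a h1
        omega
      rw [← h2]
      exact Submodule.smul_mem _ _ (BZ.mem j')
  have hsum : contr γ c = ∑ a, zw (g (z a)) (b a) := by
    rw [hz']
    have h1 : ∀ s : Finset κ, contr γ (∑ a ∈ s, zw (z a) (b a)) =
        ∑ a ∈ s, zw (g (z a)) (b a) := by
      intro s
      induction s using Finset.induction_on with
      | empty => rw [Finset.sum_empty, Finset.sum_empty, contr_zero_right]
      | insert a s ha ih => rw [Finset.sum_insert ha, Finset.sum_insert ha, contr_add_right, ih, hg]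
    exact h1 _
  rw [hsum]
  refine Submodule.sum_mem _ fun a _ => ?_
  by_cases hga : g (z a) = 0
  · rw [hga, zw_zero]
    exact Submodule.zero_mem _
  obtain ⟨j, hj⟩ : ∃ j, bb.repr c (j, a) ≠ 0 := by
    by_contra hcon
    push Not at hcon
    apply hga
    have h1 : z a = 0 := Finset.sum_eq_zero fun j _ => by rw [hcon j, zero_smul]
    rw [h1, map_zero]
  have hprod : ((↑((N a).map Sigma.fst) : Multiset (Σ i, ι i)).map (lm lam)).prod =
      ((N a).map fun y => lm lam y.1).prod := by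
    rw [Multiset.map_coe, List.map_map, Multiset.prod_coe]
    rfl
  have hsumd : ((↑((N a).map Sigma.fst) : Multiset (Σ i, ι i)).map (dg B)).sum =
      ((N a).map fun y => dg B y.1).sum := by
    rw [Multiset.map_coe, List.map_map, Multiset.sum_coe]
    rfl
  obtain ⟨b1, hb1, hb2, hb3⟩ := hb (z a) (BZ.deg j) J _ j (↑((N a).map Sigma.fst))
    (hzg a j hj) (hzE a) hga (by rw [hprod, div_mul_cancel₀ _ (hν a)]) (by
      rw [hsumd]
      exact hdeg j a hj) (hocc j a hj)
  match b1, hb1, hb2, hb3 with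
  | l :: b2, hb1, hb2, hb3 =>
    rw [List.map_cons] at hb1
    obtain ⟨h1, h2⟩ := List.cons.inj hb1
    subst h1
    subst h2
    obtain ⟨C, hC1, hC2, _⟩ := isCan_prod hB b2 l
    -- the class on the second product is a Tate class
    have hTate : ∃ J', IsTate Φ (Z.prod (prodOf X l.1 (b2.map Sigma.fst))) J'
        (zw (z a) (lwf B C)) := by
      obtain ⟨J1, hJ1, s1, hs1, hs1'⟩ := hocc j a hj
      obtain ⟨J2, hJ2, s2, hs2, hs2'⟩ := hb2
      rw [Multiset.map_cons, Multiset.sum_cons, Multiset.map_map] at hJ1 hJ2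
      rw [Multiset.map_cons, Multiset.prod_cons, Multiset.map_map] at hs1' hs2'
      have hJ1' : BZ.deg j + ((↑((N a).map Sigma.fst) : Multiset (Σ i, ι i)).map (dg B)).sum =
        2 * J1 := hJ1
      have hJ2' : BZ.deg j + ((↑(l :: b2) : Multiset (Σ i, ι i)).map (dg B)).sum = 2 * J2 := hJ2
      have hs1'' : (lamZ j * ((↑((N a).map Sigma.fst) : Multiset (Σ i, ι i)).map (lm lam)).prod) ^ s1 =
        (((p ^ e) ^ (J1 * s1) : ℕ) : W.K) := hs1'
      have hs2'' : (lamZ j * ((↑(l :: b2) : Multiset (Σ i, ι i)).map (lm lam)).prod) ^ s2 =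
        (((p ^ e) ^ (J2 * s2) : ℕ) : W.K) := hs2'
      have hJJ : J1 = J := by
        rw [hsumd, hdeg j a hj] at hJ1'
        omega
      subst hJJ
      have hC3 : (C.map fun y => lm lam y.1).prod =
          ((↑(l :: b2) : Multiset (Σ i, ι i)).map (lm lam)).prod := by
        rw [← hC1, Multiset.map_coe, List.map_map, Multiset.prod_coe]
        rfl
      have hC4 : (C.map fun y => dg B y.1).sum =
          ((↑(l :: b2) : Multiset (Σ i, ι i)).map (dg B)).sum := by
        rw [← hC1, Multiset.map_coe, List.map_map, Multiset.sum_coe]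
        rfl
      refine ⟨J2, (isTate_iff he0).2 ⟨?_, ?_⟩⟩
      · rw [← hJ2', ← hC4]
        exact W.mul_mem (W.map_mem _ (hzg a j hj)) (W.map_mem _ (lwf_gr _))
      · refine EigF.congr (r := s1 * s2) (Nat.mul_pos hs1 hs2) ?_ ((hzE a).zw (eig_word hlet C))
        rw [hC3]
        set A := ((N a).map fun y => lm lam y.1).prod with hA
        set D := ((↑(l :: b2) : Multiset (Σ i, ι i)).map (lm lam)).prod with hD
        rw [hprod] at hs1''
        have e1 : (((p ^ e : ℕ) : W.K) ^ J1 / A) ^ (s1 * s2) = lamZ j ^ (s1 * s2) := by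
          have e2 : lamZ j ^ s1 * A ^ s1 = (((p ^ e : ℕ) : W.K) ^ J1) ^ s1 := by
            rw [← mul_pow, hs1'', Nat.cast_pow, ← pow_mul]
          rw [pow_mul, pow_mul, div_pow, ← e2, mul_div_cancel_right₀ _ (pow_ne_zero _ (hν a))]
        rw [mul_pow, e1, ← mul_pow, mul_comm s1 s2, pow_mul, hs2'', Nat.cast_pow, ← pow_mul,
          ← pow_mul]
        congr 1
        ring
    obtain ⟨J', hJ'⟩ := hTate
    have hmem := hZ J' _ hJ'
    rw [hg] at hmem
    obtain ⟨κ', hκ', b', F', N', hN'⟩ := hwords (b2.map Sigma.fst) l.1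
    obtain ⟨m, hm⟩ := exists_dualv b' hC2
    rw [(hN' m).1] at hm
    have hT1 := tm_of_tr hB he he0 hm
    rw [hC1] at hT1
    have hT2 := hb3 _ hT1
    have hword : zw (lwf B (N' m)) (lwf B (N a)) ∈
        algSpan W ((prodOf X l.1 (b2.map Sigma.fst)).prod (prodOf X i L)) := by
      rw [zw, map_lwf, map_lwf, ← lwf_append]
      refine hAlg _ hT2 _ _ ?_
      rw [List.map_append, pull_fst, pull_fst, ← Multiset.coe_add, add_comm]
    have h5 : contr (zw (g (z a)) (lwf B C)) (zw (lwf B (N' m)) (lwf B (N a))) ∈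
        algSpan W (Z.prod (prodOf X i L)) :=
      algSpan_push _ (algSpan_mul (algSpan_map _ hmem) (algSpan_map _ hword))
    rw [contr_zw (lwf_gr _) (lwf_gr _)] at h5
    have h6 := Submodule.smul_mem _ (W.tr _ (lwf B C * lwf B (N' m)))⁻¹ h5
    rw [smul_smul, inv_mul_cancel₀ hm, one_smul] at h6
    rw [(hbF a).1]
    exact h6

end Geo

lemma ncTate_iff {γ : W.H (Z.prod Z)} : NcTate Φ γ P ↔ ∀ j (c : W.H (Z.prod P)),
    IsTate Φ (Z.prod P) j c → contr γ c ∈ algSpan W (Z.prod P) := by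
  have e : Submodule.span W.K {x | ∃ (i : ℕ) (z : (Z.prod P).Cycles), (Z.prod P).IsCyc i z ∧
      W.cl (Z.prod P) z = x} = algSpan W (Z.prod P) := by
    refine le_antisymm (Submodule.span_le.2 ?_) ?_
    · rintro _ ⟨i, z, hz, rfl⟩
      exact cl_mem_algSpan hz
    · intro c hc
      refine Pool.Agent.W536.RR.algSpan_induction
        (p := fun c => c ∈ Submodule.span W.K {x | ∃ (i : ℕ) (z : (Z.prod P).Cycles),
          (Z.prod P).IsCyc i z ∧ W.cl (Z.prod P) z = x}) (Submodule.zero_mem _)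
        (fun _ _ => Submodule.add_mem _) (fun _ _ => Submodule.smul_mem _ _)
        (fun j w hw => Submodule.subset_span ⟨j, w, hw, rfl⟩) hc
  constructor
  · intro h j c hc
    rw [← e]
    exact h j c hc
  · intro h j c hc
    rw [e]
    exact h j c hc

/-- **The noncommutative Tate conjecture with an arbitrary factor.** -/
theorem ncf_main [hp : Fact p.Prime] [IsAlgClosed W.K] {σ : W.K →+* ℂ} [Nonempty I]
    (hRH : ∀ Z, RiemannHyp Φ σ Z) {e : ℕ} (he : ∀ i, Φ.e (X i) = e)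
    (hint : ∀ i, HasIntegralPolys Φ σ (X i)) {D : ℕ} (hD : ∀ i, IsSlopeDenominator Φ σ (X i) D)
    {R : ℕ} (hR : RankLe {z | ∃ i, z ∈ eigenvalues Φ σ (X i)} R)
    (h : ∀ i L, (∃ F : Finset I, F.card ≤ R + 1 ∧ ∀ j ∈ i :: L, j ∈ F) →
      ∀ j, j ≤ (prodOf X i L).dim → PoleFormula Φ σ (prodOf X i L) j) :
    ∃ (i0 : I) (L0 : List I), ∀ (ℓ : ℕ) (Z : 𝒱.Obj), Φ.e Z = e → HasIntegralPolys Φ σ Z →
      ∀ γ : W.H (Z.prod Z), SlopeLevelLe Φ γ ℓ →
        (NcTate Φ γ (powerOf X i0 L0 ℓ) ↔ ∀ i L, NcTate Φ γ (prodOf X i L)) := by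
  classical
  choose ι hfin B lam hB using fun i => exists_ebasis Φ (X i)
  obtain ⟨i1⟩ := ‹Nonempty I›
  have he0 : 0 < e := he i1 ▸ Φ.e_pos _
  have hD0 : 0 < D := (hD i1).1
  have hq1 : 1 < p ^ e := Nat.one_lt_pow he0.ne' hp.out.one_lt
  have hq : ((p ^ e : ℕ) : W.K) ≠ 0 := Nat.cast_ne_zero.2 (by omega)
  have hroot : ∀ l : Σ i, ι i, (frobPoly Φ σ (X l.1) 1 (dg B l)).IsRoot (σ (lm lam l)) := by
    intro l
    rw [frobPoly_eq]
    exact (root_charpoly (hB l.1) l.2).map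
  have hnorm : ∀ l : Σ i, ι i, ‖σ (lm lam l)‖ ^ 2 = ((p ^ e : ℕ) : ℝ) ^ dg B l := by
    intro l
    have h1 := hRH (X l.1) 1 one_pos _ _ (hroot l)
    rw [h1, Pool.Agent.W534.card, mul_one, he]
  have hdual : ∀ l : Σ i, ι i, ∃ l' : Σ i, ι i, l'.1 = l.1 ∧ TM B lam (p ^ e) {l', l} := by
    intro l
    obtain ⟨m, _, h1, h2⟩ := exists_dual (hB l.1) l.2
    refine ⟨⟨l.1, m⟩, rfl, (X l.1).dim, ?_, 1, one_pos, ?_⟩
    · rw [← h1]
      simp [dg]
    · rw [pow_one, mul_one, ← he l.1, ← h2]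
      simp [lm]
  have hne : ∀ l : Σ i, ι i, lm lam l ≠ 0 := by
    intro l h0
    have h1 := hnorm l
    rw [h0, map_zero, norm_zero, zero_pow two_ne_zero] at h1
    have h2 : (0 : ℝ) < ((p ^ e : ℕ) : ℝ) ^ dg B l := by
      have : (0 : ℝ) < ((p ^ e : ℕ) : ℝ) := by exact_mod_cast (zero_lt_one.trans hq1)
      positivity
    exact h2.ne h1
  have hRel : ∀ s : Fin (R + 1) → (Σ i, ι i), ∃ a : Fin (R + 1) → ℤ, a ≠ 0 ∧
      ∏ i, (lm lam (s i)) ^ a i = 1 := by
    intro s
    obtain ⟨a, ha, h1⟩ := hR (fun i => σ (lm lam (s i))) fun i => ⟨(s i).1, _, hroot (s i)⟩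
    refine ⟨a, ha, ?_⟩
    apply σ.injective
    rw [map_one, ← h1, map_prod]
    exact Finset.prod_congr rfl fun i _ => by rw [map_zpow₀]
  have hR' : ∀ s : Fin (R + 1) → (Σ i, ι i), ∃ a : Fin (R + 1) → ℤ, a ≠ 0 ∧
      ∑ i, a i • ucl (un hne (s i)) = 0 := by
    intro s
    obtain ⟨a, ha, h1⟩ := hRel s
    refine ⟨a, ha, ?_⟩
    have h2 : ∏ i, (un hne (s i)) ^ a i = 1 := by
      apply Units.ext
      rw [Units.val_one, ← h1]
      push_cast
      rfl
    have h3 := congrArg ucl h2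
    rw [ucl_prod] at h3
    exact h3
  have hT : ∀ i L, (∃ F : Finset I, F.card ≤ R + 1 ∧ ∀ j ∈ i :: L, j ∈ F) →
      ∀ j, SemisimpleTateIn Φ (prodOf X i L) j := fun i L hF j =>
    semisimple_of_poles (hRH _) (h i L hF) j
  have hall : ∀ M : Multiset (Σ i, ι i), TM B lam (p ^ e) M → Alg B M := fun M hM =>
    alg_of_tm hB he he0 hq hq1 hne hnorm hdual hR' hT hM
  -- the case without letters
  rcases isEmpty_or_nonempty (Σ i, ι i) with hem | ⟨⟨l0⟩⟩
  · refine ⟨i1, [], fun ℓ Z _ _ γ _ => ⟨fun _ i L j c hc => ?_, fun hZ => hZ _ _⟩⟩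
    have h0 : c = 0 := by
      obtain ⟨g⟩ := exists_prj X L i
      have h1 : (1 : W.H (X i)) = 0 := by
        have := Fintype.ofFinite (ι i)
        have h2 := (B i).b.sum_repr 1
        rw [← h2]
        exact Finset.sum_eq_zero fun a _ => (hem.false ⟨i, a⟩).elim
      have h2 : (1 : W.H (Z.prod (prodOf X i L))) = 0 := by
        have h3 := congrArg (W.map (snd Z _ ≫ g)) h1
        rwa [map_one, map_zero] at h3
      rw [← mul_one c, h2, mul_zero]
    rw [h0, comp, map_zero, mul_zero, map_zero]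
    exact Submodule.zero_mem _
  have hW : IsWeilFamily p e D (lm lam) (dg B) := isWeilFamily hB (fun i => hRH _) hint hD he
  choose st hst1 hst2 using hdual
  have hpar : ∀ l, Even (dg B (st l) + dg B l) := by
    intro l
    obtain ⟨J, hJ, _⟩ := hst2 l
    have h1 : (({st l, l} : Multiset (Σ i, ι i)).map (dg B)).sum = dg B (st l) + dg B l := by
      simp
    rw [h1] at hJ
    rw [hJ]
    exact even_two_mul J
  have hst : ∀ l, rwi he0 hW (st l) = - rwi he0 hW l := by
    intro l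
    funext ψ
    have h1 := row_of_tm he0 hW (M := {st l, l}) (hst2 l) ψ
    have h2 : (({st l, l} : Multiset (Σ i, ι i)).map fun l => rwi he0 hW l ψ).sum =
      rwi he0 hW (st l) ψ + rwi he0 hW l ψ := by simp
    rw [h2] at h1
    rw [Pi.neg_apply]
    omega
  have hN : ∀ s : Fin (R + 1) → (Σ i, ι i), ∃ a : Fin (R + 1) → ℤ, a ≠ 0 ∧
      ∑ i, a i • rwi he0 hW (s i) = 0 := by
    intro s
    obtain ⟨a, ha, h1⟩ := hRel s
    refine ⟨a, ha, rows_dep he0 hW s h1 ?_⟩
    have h2 := congrArg (fun x => ‖σ x‖ ^ 2) h1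
    have hqpos : (0 : ℝ) < ((p ^ e : ℕ) : ℝ) := by exact_mod_cast (zero_lt_one.trans hq1)
    have h3 : ‖σ (∏ i, (lm lam (s i)) ^ a i)‖ ^ 2 =
        (((p ^ e : ℕ) : ℝ)) ^ (∑ i, a i * (dg B (s i) : ℤ)) := by
      rw [map_prod, norm_prod, ← Finset.prod_pow]
      have h4 : ∀ i, ‖σ ((lm lam (s i)) ^ a i)‖ ^ 2 =
          (((p ^ e : ℕ) : ℝ)) ^ (a i * (dg B (s i) : ℤ)) := by
        intro i
        rw [map_zpow₀, norm_zpow, ← zpow_natCast, ← zpow_mul, mul_comm (a i) ((2 : ℕ) : ℤ),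
          zpow_mul, zpow_natCast, hnorm, ← zpow_natCast, ← zpow_mul, mul_comm (a i)]
      rw [Finset.prod_congr rfl fun i _ => h4 i]
      have h5 : ∀ t : Finset (Fin (R + 1)), ∏ i ∈ t, (((p ^ e : ℕ) : ℝ)) ^ (a i * (dg B (s i) : ℤ)) =
          (((p ^ e : ℕ) : ℝ)) ^ (∑ i ∈ t, a i * (dg B (s i) : ℤ)) := by
        intro t
        induction t using Finset.induction_on with
        | empty => simp
        | insert b t hb ih =>
          rw [Finset.prod_insert hb, Finset.sum_insert hb, ih, zpow_add₀ hqpos.ne']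
      exact h5 _
    rw [h3, map_one, norm_one, one_pow, ← zpow_zero (((p ^ e : ℕ) : ℝ))] at h2
    exact zpow_right_injective₀ hqpos (by exact_mod_cast hq1.ne') h2
  have hz : ∀ l : (Σ i, ι i), HasZ (hd (rwi he0 hW) (dg B)) l.1 := by
    intro l
    by_contra hcon
    have h1 : ∀ a, (B l.1).deg a ≠ 0 := by
      intro a ha
      apply hcon
      refine ⟨a, ?_⟩
      funext o
      rcases o with ψ | o
      · exact congrFun (rwi_zero he0 hW (l := ⟨l.1, a⟩) ha) ψ
      · change ((dg B ⟨l.1, a⟩ : ℕ) : ℤ) = 0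
        rw [dg, ha]
        rfl
    have h2 : ∀ a, (B l.1).b.repr (1 : W.H (X l.1)) a = 0 := fun a =>
      repr_zero (W.isInternal (X l.1)).submodule_iSupIndep (B l.1).b
        (fun a => (B l.1).deg a) (fun a => (B l.1).mem a) (W.one_mem _) (h1 a)
    have h3 : (1 : W.H (X l.1)) = 0 := by
      have := Fintype.ofFinite (ι l.1)
      rw [← (B l.1).b.sum_repr 1]
      exact Finset.sum_eq_zero fun a _ => by rw [h2, zero_smul]
    apply (B l.1).b.ne_zero l.2
    rw [← mul_one ((B l.1).b l.2), h3, mul_zero]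
  obtain ⟨L0, hL0⟩ := exists_productP hN hst hpar D hz l0
  have hletE : ∀ l : Σ i, ι i, EigF Φ e (X l.1) (lm lam l) ((B l.1).b l.2) :=
    fun l => eig_letter hB he he0 hall (fun l => ⟨st l, hst1 l, hst2 l⟩) l
  refine ⟨l0.1, L0, fun ℓ Z heZ hZint γ hlev => ⟨fun hNc i L => ?_, fun hZ => hZ _ _⟩⟩
  obtain ⟨κZ, hκZ, BZ, lamZ, hBZ⟩ := exists_ebasis Φ Z
  have hDZ := slopeDenominator (hRH Z) hZint
  set DZ := Φ.e Z * (finrank W.K (W.H Z)).factorial with hDZdef
  have hBE : ∀ o, IsEig Φ (BE B BZ o) (lamE lam lamZ o) := by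
    rintro (_ | i)
    · exact hBZ
    · exact hB i
  have heE : ∀ o, Φ.e (XE X Z o) = e := by
    rintro (_ | i)
    · exact heZ
    · exact he i
  have hWE : IsWeilFamily p e (D * DZ) (lm (lamE lam lamZ)) (dg (BE B BZ)) := by
    refine isWeilFamily hBE (fun o => hRH _) ?_ ?_ heE
    · rintro (_ | i)
      · exact hZint
      · exact hint i
    · rintro (_ | i)
      · show IsSlopeDenominator Φ σ Z (D * DZ)
        rw [mul_comm]
        exact slope_mul hDZ hD0
      · exact slope_mul (hD i) hDZ.1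
  have hDE : 0 < D * DZ := Nat.mul_pos hD0 hDZ.1
  -- the rows of the extended family
  have hrho_up : ∀ ψ (l : Σ i, ι i), rho hWE ψ (up l) = rho hW ψ l := fun ψ l => rfl
  have hdg_up : ∀ l : Σ i, ι i, dg (BE B BZ) (up l) = dg B l := fun l => rfl
  have hsum_up : ∀ ψ (M : Multiset (Σ i, ι i)), ((M.map up).map (rho hWE ψ)).sum =
      (M.map (rho hW ψ)).sum := by
    intro ψ M
    rw [Multiset.map_map]
    rfl
  have hdeg_up : ∀ (M : Multiset (Σ i, ι i)), ((M.map up).map (dg (BE B BZ))).sum =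
      (M.map (dg B)).sum := by
    intro M
    rw [Multiset.map_map]
    rfl
  obtain ⟨g, hg⟩ := exists_act γ
  have hgz : ∀ (s d : ℕ) (μ : W.K) (z : W.H Z), 0 < s → z ∈ W.gr Z d →
      frob Φ Z s z = μ • z → g z ≠ 0 → SlopesWithin p (card Φ Z s) μ d ℓ := by
    intro s d μ z hs hz hμ hgz0
    by_contra hcon
    have h1 := hlev s d μ z hs hz hμ hcon Z
    apply hgz0
    have h2 : W.map (fst Z Z) z = zw z (1 : W.H Z) := by
      rw [zw, map_one, mul_one]
    rw [h2] at h1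
    have h3 : zw (g z) (1 : W.H Z) = 0 := by
      rw [← hg]
      exact h1
    by_contra hne0
    refine zw_ne hne0 ?_ h3
    intro h4
    apply hne0
    rw [← mul_one (g z), h4, mul_zero]
  refine ncTate_iff.2 (ncf_geo hB hBZ he heZ he0 hq hall hletE hne hg (i0 := l0.1)
    (L' := powL L0 l0.1 ℓ) ?_ (ncTate_iff.1 hNc) i L)
  intro z d J μ a M hz hμ hgz0 hμM hdM hM
  have hM' : TMa (p ^ e) (lm (lamE lam lamZ)) (dg (BE B BZ)) (zl a ::ₘ M.map up) := hM
  have hrho : ∀ ψ, rho hWE ψ (zl a) + (M.map (rho hW ψ)).sum = 0 := by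
    intro ψ
    have h1 := rho_of_tm he0 hWE hM' ψ
    rwa [Multiset.map_cons, Multiset.sum_cons, hsum_up] at h1
  have hdegM : Even (dg (BE B BZ) (zl a) + (M.map (dg B)).sum) := by
    obtain ⟨J, hJ, _⟩ := hM'
    rw [Multiset.map_cons, Multiset.sum_cons, hdeg_up] at hJ
    rw [hJ]
    exact even_two_mul J
  -- the slopes
  obtain ⟨n, hn, hn'⟩ := hμ
  have hslope := hgz n d (μ ^ n) z hn hz (hn' n n (dvd_refl n) (by rw [heZ])) hgz0
  have hbnd : ∀ ψ : Emb W.K p, |(M.map (rho hW ψ)).sum| ≤ (ℓ : ℝ) := by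
    intro ψ
    have hMne : (M.map (om hW)).prod ≠ 0 := Multiset.prod_ne_zero fun h0 => by
      obtain ⟨b, _, hb⟩ := Multiset.mem_map.1 h0
      exact om_ne_zero he0 hW b hb
    let μa : Om W.K := ((p : Om W.K) ^ e) ^ J / (M.map (om hW)).prod
    have hμa : (μa : W.K) = μ := by
      have h1 : (μa : W.K) = ((p : W.K) ^ e) ^ J / (M.map (lm lam)).prod := by
        rw [← coe_mprod hW]
        have h2 := map_div₀ (algebraMap (Om W.K) W.K) (((p : Om W.K) ^ e) ^ J) (M.map (om hW)).prod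
        rw [map_pow, map_pow, map_natCast] at h2
        exact h2
      rw [h1, div_eq_iff (by
        rw [← coe_mprod hW]
        intro h0
        apply hMne
        exact Subtype.ext h0), hμM]
      push_cast
      rfl
    have hμa0 : μa ≠ 0 := div_ne_zero (pow_ne_zero _ (pow_ne_zero _
      (Nat.cast_ne_zero.2 hp.out.ne_zero))) hMne
    have hpne : ((p : Om W.K) ^ e) ≠ 0 := pow_ne_zero _ (Nat.cast_ne_zero.2 hp.out.ne_zero)
    have hv1 : vl e ψ μa + (M.map fun l => vl e ψ (om hW l)).sum = J := by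
      rw [← vl_mprod ψ M (om_ne_zero he0 hW), ← vl_mul ψ hμa0 hMne]
      show vl e ψ (((p : Om W.K) ^ e) ^ J / (M.map (om hW)).prod * (M.map (om hW)).prod) = J
      rw [div_mul_cancel₀ _ hMne, vl_pow, vl_q he0, mul_one]
    have hv2 : (M.map (rho hW ψ)).sum = d - 2 * vl e ψ μa := by
      rw [sum_rho hW]
      have h2 : (d : ℝ) + ((M.map (dg B)).sum : ℕ) = 2 * J := by exact_mod_cast hdM
      have h3 : ((M.map (dg B)).sum : ℝ) = ((M.map (dg B)).sum : ℕ) := rfl
      linarith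
    -- the absolute value
    have hroot' : Polynomial.aeval (ψ (μa ^ n)) (minpoly ℚ (μ ^ n)) = 0 := by
      have h4 : minpoly ℚ (μ ^ n) = minpoly ℚ (μa ^ n) := by
        rw [← hμa, ← SubmonoidClass.coe_pow]
        exact minpoly.algebraMap_eq (algebraMap (Om W.K) W.K).injective (μa ^ n)
      rw [h4, Polynomial.aeval_algHom_apply, minpoly.aeval, map_zero]
    obtain ⟨h5, h6⟩ := hslope _ hroot'
    have hlq := logq_pos (p := p) he0
    have hnorm' : Real.log (‖ψ (μa ^ n)‖ ^ 2) = -(2 * n * vl e ψ μa * Real.log ((p : ℝ) ^ e)) := by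
      rw [Real.log_pow]
      have h7 := vl_pow (e := e) ψ (x := μa) n
      rw [vl] at h7
      have h8 : Real.log ‖ψ (μa ^ n)‖ = -(n * vl e ψ μa * Real.log ((p : ℝ) ^ e)) := by
        rw [← h7, neg_mul, div_mul_cancel₀ _ hlq.ne', neg_neg]
      rw [h8]
      push_cast
      ring
    have hpos2 : 0 < ‖ψ (μa ^ n)‖ ^ 2 := by
      have : ψ (μa ^ n) ≠ 0 := (map_ne_zero ψ).2 (pow_ne_zero _ hμa0)
      positivity
    have hcardpos : (0 : ℝ) < (card Φ Z n : ℝ) := by
      exact_mod_cast card_pos Φ n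
    have hlc : Real.log (card Φ Z n : ℝ) = n * Real.log ((p : ℝ) ^ e) := by
      rw [Pool.Agent.W534.card, heZ, pow_mul, Nat.cast_pow, Nat.cast_pow, Real.log_pow]
    have h9 := Real.log_le_log (zpow_pos hcardpos _) h5
    have h10 := Real.log_le_log hpos2 h6
    rw [Real.log_zpow, hlc, hnorm'] at h9 h10
    have hnpos : (0 : ℝ) < n := by exact_mod_cast hn
    have hc : 0 < (n : ℝ) * Real.log ((p : ℝ) ^ e) := mul_pos hnpos hlq
    have h11 : (2 * vl e ψ μa - d - ℓ) * ((n : ℝ) * Real.log ((p : ℝ) ^ e)) ≤ 0 := by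
      push_cast at h9
      linarith
    have h12 : 0 ≤ (2 * vl e ψ μa - d + ℓ) * ((n : ℝ) * Real.log ((p : ℝ) ^ e)) := by
      push_cast at h10
      linarith
    have h13 : 2 * vl e ψ μa - d - ℓ ≤ 0 := by
      by_contra hcon
      push Not at hcon
      have := mul_pos hcon hc
      linarith
    have h14 : 0 ≤ 2 * vl e ψ μa - d + ℓ := by
      by_contra hcon
      push Not at hcon
      have := mul_neg_of_neg_of_pos hcon hc
      linarith
    rw [hv2, abs_le]
    constructor <;> linarith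
  obtain ⟨b, hb1, hb2, hb3⟩ := hL0 (max ℓ 1) M (by
    intro ψ
    have h1 : ((Arb.lam (rwi he0 hW) M ψ : ℤ) : ℝ) = D * (M.map (rho hW ψ)).sum := by
      rw [← sum_rwi he0 hW, lam_apply]
    have h2 : ((|Arb.lam (rwi he0 hW) M ψ| : ℤ) : ℝ) ≤ ((D * (max ℓ 1 : ℕ) : ℤ) : ℝ) := by
      rw [Int.cast_abs, h1, abs_mul, Nat.abs_cast]
      push_cast
      refine mul_le_mul_of_nonneg_left ?_ (Nat.cast_nonneg D)
      exact (hbnd ψ).trans (le_max_left _ _)
    exact_mod_cast h2) (by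
    intro h0
    have := le_max_right ℓ 1
    omega)
  have hpow : powL L0 l0.1 (max ℓ 1) = powL L0 l0.1 ℓ := by
    rcases Nat.eq_zero_or_pos ℓ with h0 | h0
    · rw [h0]
      rfl
    · rw [max_eq_left h0]
  rw [hpow] at hb1
  have hrow : ∀ ψ, (((↑b : Multiset (Σ i, ι i))).map (rho hW ψ)).sum = (M.map (rho hW ψ)).sum := by
    intro ψ
    have h1 := congrFun hb2 ψ
    rw [lam_apply, lam_apply] at h1
    have h2 := sum_rwi he0 hW ψ (↑b : Multiset (Σ i, ι i))
    rw [h1, sum_rwi] at h2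
    exact (mul_left_cancel₀ (Nat.cast_ne_zero.2 hD0.ne') h2).symm
  refine ⟨b, hb1, ?_, fun M0 hM0 => ?_⟩
  · refine tm_of_rows he0 hDE hWE ?_ fun ψ => ?_
    · rw [Multiset.map_cons, Multiset.sum_cons, hdeg_up]
      rw [Nat.even_iff] at hdegM hb3 ⊢
      omega
    · have h1 := sum_rwi he0 hWE ψ (zl a ::ₘ (↑b : Multiset (Σ i, ι i)).map up)
      rw [Multiset.map_cons (rho hWE ψ), Multiset.sum_cons, hsum_up, hrow, hrho, mul_zero] at h1
      exact_mod_cast h1
  · refine tm_of_rows he0 hD0 hW ?_ fun ψ => ?_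
    · obtain ⟨J, hJ, _⟩ := hM0
      rw [Multiset.map_add, Multiset.sum_add] at hJ ⊢
      rw [Nat.even_iff] at hb3 ⊢
      omega
    · have h1 := sum_rwi he0 hW ψ (M + M0)
      have h2 := rho_of_tm he0 hW (M := (↑b : Multiset (Σ i, ι i)) + M0) hM0 ψ
      rw [Multiset.map_add, Multiset.sum_add, hrow] at h2
      rw [Multiset.map_add (rho hW ψ), Multiset.sum_add, h2, mul_zero] at h1
      exact_mod_cast h1

end Pool.Agent.R936.ArbF
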