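import Pool.Agent.R936.ArbF.Fin
import Pool.Agent.R936.Arb.Num

/-!
# Numerically trivial cycles on products with an arbitrary factor over finite fields
-/

set_option linter.unusedVariables false
set_option linter.unusedSectionVars false

open CategoryTheory AlgebraicGeometry TensorProduct

universe u v w

namespace Pool.Agent.R936.ArbF

open Pool.Agent.H914 Pool.Agent.W534 VarClass Obj WeilCohomology Module
open Pool.Agent.Y163 (HBasis genU mem_genU prod_perm)
open Pool.Agent.R940 (IsEig repr_zero root_charpoly exists_ebasis pole_of_semisimple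
  semisimple_of_poles IsWeilFamily weilFamily HasIntegralPolys IsSlopeDenominator slopeDenominator
  deg_le)
open Pool.Agent.R936.Hel
open Pool.Agent.R936.Arb (powL HasZ zw zw_add zw_smul zw_zero zw_sum zw_ne contr contr_zw contr_sum
  contr_numZ)
open Pool.Agent.W536.RR (algSpan_map algSpan_mul one_mem_algSpan cl_mem_algSpan algSpan_push
  numZ numZ_mul numZ_map numZ_push mem_transc algSpan_induction homEqNum_of_numZ)
open Pool.Agent.H281R3.HT

variable {k : Type u} [Field k] {𝒱 : VarClass k} {ops : CycleOps 𝒱}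
  {W : WeilCohomology.{u, v} ops} {Y Z P Q : 𝒱.Obj} {p : ℕ} {Φ : FrobSystem W p}
  {I : Type w} {X : I → 𝒱.Obj} {ι : I → Type v} {κZ : Type v}
  {B : ∀ i, HBasis W (X i) (ι i)} {BZ : HBasis W Z κZ} {lam : ∀ i, ι i → W.K}
  {lamZ : κZ → W.K}

/-- The degrees of words with nonzero trace. -/
lemma deg_of_tr {C N : List (Lt X ι Y)} (h : W.tr Y (lwf B C * lwf B N) ≠ 0) :
    (C.map fun y => dg B y.1).sum + (N.map fun y => dg B y.1).sum = 2 * Y.dim := by
  by_contra hne
  exact h (W.tr_eq_zero (W.mul_mem (lwf_gr C) (lwf_gr N)) hne)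

/-- **Numerically trivial cycles on products with an arbitrary factor.** -/
theorem num_geo [∀ i, Finite (ι i)] [Finite κZ] (hB : ∀ i, IsEig Φ (B i) (lam i))
    (hBZ : IsEig Φ BZ lamZ) {e : ℕ} (he : ∀ i, Φ.e (X i) = e) (heZ : Φ.e Z = e) (he0 : 0 < e)
    (hAlg : ∀ M, TM B lam (p ^ e) M → Alg B M) {i0 : I} {L' : List I}
    (hcan : ∀ A A' C C' : Multiset (Σ i, ι i), TM B lam (p ^ e) (A + C) →
      TM B lam (p ^ e) (A' + C) → TM B lam (p ^ e) (A' + C') → TM B lam (p ^ e) (A + C'))
    (hb : ∀ (i : κZ) (M : Multiset (Σ i, ι i)),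
      TM (BE B BZ) (lamE lam lamZ) (p ^ e) (zl i ::ₘ M.map up) →
      ∃ b : List (Σ i, ι i), b.map Sigma.fst = i0 :: L' ∧
        ∀ M0, TM B lam (p ^ e) (M + M0) → TM B lam (p ^ e) (↑b + M0))
    (hZ : HomEqNum W (Z.prod (prodOf X i0 L'))) (i : I) (L : List I) :
    HomEqNum W (Z.prod (prodOf X i L)) := by
  classical
  intro J hJ cy hcy hnum
  have hBE : ∀ o, IsEig Φ (BE B BZ o) (lamE lam lamZ o) := by
    rintro (_ | i)
    · exact hBZ
    · exact hB i
  have heE : ∀ o, Φ.e (XE X Z o) = e := by
    rintro (_ | i)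
    · exact heZ
    · exact he i
  set c := W.cl _ cy with hcdef
  -- the class is numerically trivial
  have hx : c ∈ numZ W (Z.prod (prodOf X i L)) := by
    refine ⟨cl_mem_algSpan hcy, mem_transc.2 fun d hd => ?_⟩
    refine algSpan_induction (p := fun d => W.tr _ (c * d) = 0) ?_ ?_ ?_ ?_ hd
    · rw [mul_zero, map_zero]
    · intro x y hx hy; rw [mul_add, map_add, hx, hy, add_zero]
    · intro t x hx; rw [mul_smul_comm, map_smul, hx, smul_zero]
    · intro l w hw
      by_cases hi : l = (Z.prod (prodOf X i L)).dim - J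
      · subst hi
        have h1 := ops.mul_mem hcy hw
        rw [show J + ((Z.prod (prodOf X i L)).dim - J) = (Z.prod (prodOf X i L)).dim by omega] at h1
        rw [hcdef, ← W.cl_mul, W.tr_cl h1, hnum w hw, Rat.cast_zero]
      · exact W.tr_eq_zero (W.mul_mem (W.cl_mem hcy) (W.cl_mem hw)) (by omega)
  obtain ⟨s, hs, hTate⟩ : ∃ s, 0 < s ∧ c ∈ genTate Φ (Z.prod (prodOf X i L)) s J := by
    obtain ⟨t, ht, h⟩ := exists_span_eig Φ (Z.prod (prodOf X i L)) J
    refine ⟨t, ht, mem_genTate_of_eig Φ (W.cl_mem hcy) (h c ?_)⟩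
    exact Submodule.subset_span ⟨J, rfl, cy, hcy, rfl⟩
  have hwords := hasWords_prod (X := X) B (fun i => inferInstance)
  obtain ⟨κ, hκ, b, F, N, hbF⟩ := hwords L i
  cases nonempty_fintype κ
  cases nonempty_fintype κZ
  let bb := (BZ.b.tensorProduct b).map (kappa W Z (prodOf X i L))
  have hbb : ∀ x, bb x = zw (BZ.b x.1) (lwf B (N x.2)) := by
    intro x
    rw [Module.Basis.map_apply, Module.Basis.tensorProduct_apply', kappa_tmul, ← (hbF x.2).1]
    rfl
  let z : κ → W.H Z := fun a => ∑ j, bb.repr c (j, a) • BZ.b j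
  have hz' : c = ∑ a, zw (z a) (lwf B (N a)) := by
    conv_lhs => rw [← bb.sum_repr c]
    rw [Fintype.sum_prod_type_right]
    refine Finset.sum_congr rfl fun a _ => ?_
    show _ = zw (∑ j, bb.repr c (j, a) • BZ.b j) (lwf B (N a))
    rw [zw_sum]
    exact Finset.sum_congr rfl fun j _ => by rw [zw_smul, hbb]
  have hbl : ∀ x, bb x = lwf (BE B BZ) ((⟨zl x.1, fst Z _⟩ : Lt (XE X Z) (ιE ι κZ) (Z.prod _)) ::
      pull (snd Z _) ((N x.2).map upL)) := fun x => by rw [lwf_zw, hbb]
  -- the words which occur
  have hocc : ∀ j a, bb.repr c (j, a) ≠ 0 → TM (BE B BZ) (lamE lam lamZ) (p ^ e)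
      (zl j ::ₘ (↑((N a).map Sigma.fst) : Multiset (Σ i, ι i)).map up) := by
    intro j a h0
    have hTM := tm_of_repr hBE hbl (by
      let F' : List (Σ o, (Z.prod (prodOf X i L) ⟶ XE X Z o)) :=
        ⟨none, fst Z (prodOf X i L)⟩ ::
          F.map (fun x => ⟨some x.1, snd Z (prodOf X i L) ≫ x.2⟩)
      obtain ⟨S, S', hS, hS', hSS, h1⟩ := frob_lt Φ heE he0 F'
      refine ⟨S, S', hS, hS', hSS, fun x y hy t w => h1 ⟨y.1.1, y.2⟩ ?_ t w⟩
      rcases List.mem_cons.1 hy with rfl | hy
      · exact List.mem_cons_self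
      · apply List.mem_cons_of_mem
        obtain ⟨z, hz, rfl⟩ := List.mem_map.1 hy
        obtain ⟨z', hz', rfl⟩ := List.mem_map.1 hz
        exact List.mem_map.2 ⟨_, (hbF x.2).2 z' hz', rfl⟩) hs hTate h0
    rw [List.map_cons, pull_fst, map_up_fst, ← Multiset.cons_coe] at hTM
    exact hTM
  obtain ⟨g, hg⟩ := Pool.Agent.R936.Arb.exists_dual (W := W) b
  have hzero : ∀ a, z a = 0 := by
    intro a
    by_contra hz0
    obtain ⟨j, hj⟩ : ∃ j, bb.repr c (j, a) ≠ 0 := by
      by_contra hcon
      push Not at hcon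
      exact hz0 (Finset.sum_eq_zero fun j _ => by rw [hcon, zero_smul])
    obtain ⟨b1, hb1, hb3⟩ := hb j _ (hocc j a hj)
    match b1, hb1, hb3 with
    | l :: b2, hb1, hb3 =>
      rw [List.map_cons] at hb1
      obtain ⟨h1, h2⟩ := List.cons.inj hb1
      subst h1
      subst h2
      obtain ⟨C, hC1, hC2, _⟩ := isCan_prod hB b2 l
      -- complementary words
      let w : κ → Multiset (Σ i, ι i) := fun m => ↑((N m).map Sigma.fst)
      let δ : κ → ℕ := fun m => ((N m).map fun y => dg B y.1).sum
      let Co : κ → κ → Prop := fun m a' => TM B lam (p ^ e) (w m + w a') ∧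
        δ m + δ a' = 2 * (prodOf X i L).dim
      have hCo : ∀ m a', W.tr _ (b a' * b m) ≠ 0 → Co m a' := by
        intro m a' h
        rw [(hbF a').1, (hbF m).1] at h
        refine ⟨?_, ?_⟩
        · have h1 := tm_of_tr hB he he0 h
          rwa [add_comm] at h1
        · have h1 := deg_of_tr h
          rwa [add_comm] at h1
      let u : W.H (prodOf X i L) := ∑ m ∈ Finset.univ.filter (fun m => Co m a), g m a • b m
      have hu : u ∈ W.gr _ (2 * (prodOf X i L).dim - δ a) := by
        refine Submodule.sum_mem _ fun m hm => Submodule.smul_mem _ _ ?_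
        have h1 := (Finset.mem_filter.1 hm).2.2
        rw [show 2 * (prodOf X i L).dim - δ a = δ m by omega, (hbF m).1]
        exact lwf_gr _
      have htr : ∀ a', W.tr _ (b a' * u) = if a' = a then 1 else 0 := by
        intro a'
        by_cases hsame : ∀ m, Co m a' → Co m a
        · rw [← hg a a']
          show W.tr _ (b a' * ∑ m ∈ Finset.univ.filter (fun m => Co m a), g m a • b m) = _
          rw [Finset.mul_sum, map_sum, Finset.mul_sum, map_sum, Finset.sum_filter]
          refine Finset.sum_congr rfl fun m _ => ?_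
          split_ifs with h
          · rfl
          · rw [mul_smul_comm, map_smul]
            by_cases h0 : W.tr _ (b a' * b m) = 0
            · rw [h0, smul_zero]
            · exact absurd (hsame m (hCo m a' h0)) h
        · have hne : a' ≠ a := by
            rintro rfl
            exact hsame fun _ h => h
          rw [if_neg hne]
          show W.tr _ (b a' * ∑ m ∈ Finset.univ.filter (fun m => Co m a), g m a • b m) = _
          rw [Finset.mul_sum, map_sum]
          refine Finset.sum_eq_zero fun m hm => ?_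
          rw [mul_smul_comm, map_smul]
          by_cases h0 : W.tr _ (b a' * b m) = 0
          · rw [h0, smul_zero]
          · exfalso
            apply hsame
            intro m' hm'
            have h1 := hCo m a' h0
            have h2 := (Finset.mem_filter.1 hm).2
            refine ⟨hcan (w m') (w m) (w a') (w a) hm'.1 h1.1 h2.1, ?_⟩
            have h3 := hm'.2
            have h4 := h1.2
            have h5 := h2.2
            omega
      have hword : zw u (lwf B C) ∈
          algSpan W ((prodOf X i L).prod (prodOf X l.1 (b2.map Sigma.fst))) := by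
        show zw (∑ m ∈ Finset.univ.filter (fun m => Co m a), g m a • b m) (lwf B C) ∈ _
        rw [zw_sum]
        refine Submodule.sum_mem _ fun m hm => ?_
        rw [zw_smul, (hbF m).1]
        refine Submodule.smul_mem _ _ ?_
        have h1 := (Finset.mem_filter.1 hm).2.1
        rw [add_comm] at h1
        have h2 := hb3 _ h1
        rw [zw, map_lwf, map_lwf, ← lwf_append]
        refine hAlg _ h2 _ _ ?_
        rw [List.map_append, pull_fst, pull_fst, ← Multiset.coe_add, add_comm, hC1]
      have h5 := contr_numZ hx hword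
      rw [hz', contr_sum] at h5
      have h6 : ∑ a', contr (zw (z a') (lwf B (N a'))) (zw u (lwf B C)) =
          zw (z a) (lwf B C) := by
        rw [Finset.sum_eq_single a]
        · rw [contr_zw (lwf_gr _) hu, ← (hbF a).1, htr, if_pos rfl, one_smul]
        · intro a' _ hne
          rw [contr_zw (lwf_gr _) hu, ← (hbF a').1, htr, if_neg hne, zero_smul]
        · intro h
          exact absurd (Finset.mem_univ _) h
      rw [h6] at h5
      exact zw_ne hz0 hC2 (Pool.Agent.Y129.homEqNum_algSpan hZ h5.1 h5.2)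
  show c = 0
  rw [hz']
  exact Finset.sum_eq_zero fun a _ => by rw [hzero, zw_zero]

end Pool.Agent.R936.ArbF
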