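import Pool.Agent.R940.Tor
import Pool.Agent.R936.ArbF.Dick

/-!
# Valuations of Weil numbers
-/

set_option linter.unusedSectionVars false

namespace Pool.Agent.R936.ArbF

open Polynomial Finset IntermediateField
open Pool.Agent.R940

variable {K ι : Type*} [Field K] [CharZero K] {p : ℕ} [hp : Fact p.Prime] {e D : ℕ}
  {lam : ι → K} {deg : ι → ℕ}

/-- The algebraic numbers in `K`. -/
abbrev Om (K : Type*) [Field K] [CharZero K] : IntermediateField ℚ K := algebraicClosure ℚ K

/-- The embeddings of the algebraic numbers. -/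
abbrev Emb (K : Type*) [Field K] [CharZero K] (p : ℕ) [Fact p.Prime] : Type _ :=
  Om K →ₐ[ℚ] PadicAlgCl p

/-- The number as an algebraic number. -/
noncomputable def om (h : IsWeilFamily p e D lam deg) (l : ι) : Om K :=
  ⟨lam l, (mem_algebraicClosure_iff).2 ((h.int l).tower_top (A := ℚ)).isAlgebraic⟩

lemma coe_om (h : IsWeilFamily p e D lam deg) (l : ι) : (om h l : K) = lam l := rfl

/-- The valuation, normalised by `q = p ^ e`. -/
noncomputable def vl (e : ℕ) (ψ : Emb K p) (x : Om K) : ℝ :=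
  -(Real.log ‖ψ x‖ / Real.log ((p : ℝ) ^ e))

lemma logq_pos (he : 0 < e) : 0 < Real.log ((p : ℝ) ^ e) := Real.log_pos (pe_pos he)

lemma vl_mul (ψ : Emb K p) {x y : Om K} (hx : x ≠ 0) (hy : y ≠ 0) :
    vl e ψ (x * y) = vl e ψ x + vl e ψ y := by
  rw [vl, vl, vl, map_mul, norm_mul, Real.log_mul (norm_ne_zero_iff.2 ((map_ne_zero ψ).2 hx))
    (norm_ne_zero_iff.2 ((map_ne_zero ψ).2 hy))]
  ring

lemma vl_one (ψ : Emb K p) : vl e ψ 1 = 0 := by
  rw [vl, map_one, norm_one, Real.log_one, zero_div, neg_zero]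

lemma vl_pow (ψ : Emb K p) {x : Om K} (n : ℕ) : vl e ψ (x ^ n) = n * vl e ψ x := by
  rw [vl, vl, map_pow, norm_pow, Real.log_pow]
  ring

lemma vl_q (he : 0 < e) (ψ : Emb K p) : vl e ψ ((p : Om K) ^ e) = 1 := by
  have h1 := norm_natCast_p (p := p) (e := e) 1
  rw [pow_one, pow_one] at h1
  rw [vl, map_pow, map_natCast, h1, Real.log_inv, neg_div, neg_neg,
    div_self (logq_pos he).ne']

lemma vl_nonneg (he : 0 < e) (ψ : Emb K p) {x : Om K} (hx : IsIntegral ℤ x) : 0 ≤ vl e ψ x := by
  have h1 : ‖ψ x‖ ≤ 1 := padic_integral (hx.map (ψ.restrictScalars ℤ))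
  rw [vl, neg_nonneg]
  exact div_nonpos_of_nonpos_of_nonneg (Real.log_nonpos (norm_nonneg _) h1) (logq_pos he).le

lemma vl_mprod (ψ : Emb K p) (M : Multiset ι) {f : ι → Om K} (hf : ∀ l, f l ≠ 0) :
    vl e ψ (M.map f).prod = (M.map fun l => vl e ψ (f l)).sum := by
  induction M using Multiset.induction_on with
  | empty => simp [vl_one]
  | cons a M ih =>
    rw [Multiset.map_cons, Multiset.prod_cons, Multiset.map_cons, Multiset.sum_cons,
      vl_mul ψ (hf a) (Multiset.prod_ne_zero fun h => by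
        obtain ⟨b, _, hb⟩ := Multiset.mem_map.1 h
        exact hf b hb), ih]

lemma om_ne_zero (he : 0 < e) (h : IsWeilFamily p e D lam deg) (l : ι) : om h l ≠ 0 := by
  intro h0
  apply el_ne_zero he h l
  apply Subtype.ext
  have h1 : (om h l : K) = 0 := by
    rw [h0]
    rfl
  exact h1

lemma om_int (h : IsWeilFamily p e D lam deg) (l : ι) : IsIntegral ℤ (om h l) := by
  have : IsIntegral ℤ ((algebraMap (Om K) K) (om h l)) := h.int l
  exact (isIntegral_algebraMap_iff (algebraMap (Om K) K).injective).1 this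

lemma om_co_int (he : 0 < e) (h : IsWeilFamily p e D lam deg) (l : ι) :
    IsIntegral ℤ (((p : Om K) ^ e) ^ deg l / om h l) := by
  have h1 : IsIntegral ℤ ((algebraMap (EF lam) K) (((p : EF lam) ^ e) ^ deg l / el lam l)) :=
    (co_int he h l).map ((algebraMap (EF lam) K).toIntAlgHom)
  have h2 : (algebraMap (EF lam) K) (((p : EF lam) ^ e) ^ deg l / el lam l) =
      (algebraMap (Om K) K) (((p : Om K) ^ e) ^ deg l / om h l) := by
    rw [map_div₀, map_div₀, map_pow, map_pow, map_pow, map_pow, map_natCast, map_natCast]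
    rfl
  rw [h2] at h1
  exact (isIntegral_algebraMap_iff (algebraMap (Om K) K).injective).1 h1

lemma vl_le (he : 0 < e) (h : IsWeilFamily p e D lam deg) (ψ : Emb K p) (l : ι) :
    vl e ψ (om h l) ≤ deg l := by
  have hq : ((p : Om K) ^ e) ≠ 0 := pow_ne_zero _ (Nat.cast_ne_zero.2 hp.out.ne_zero)
  have h1 := vl_nonneg he ψ (om_co_int he h l)
  have h2 : ((p : Om K) ^ e) ^ deg l = (((p : Om K) ^ e) ^ deg l / om h l) * om h l :=
    (div_mul_cancel₀ _ (om_ne_zero he h l)).symm
  have h3 := congrArg (vl e ψ) h2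
  rw [vl_mul ψ (div_ne_zero (pow_ne_zero _ hq) (om_ne_zero he h l)) (om_ne_zero he h l), vl_pow,
    vl_q he, mul_one] at h3
  linarith

/-- The normalised valuation of weight zero. -/
noncomputable def rho (h : IsWeilFamily p e D lam deg) (ψ : Emb K p) (l : ι) : ℝ :=
  2 * vl e ψ (om h l) - deg l

lemma exists_rw (he : 0 < e) (h : IsWeilFamily p e D lam deg) (ψ : Emb K p) (l : ι) :
    ∃ m : ℤ, (m : ℝ) = D * rho h ψ l := by
  have h1 : aeval (ψ (om h l)) (minpoly ℚ (lam l)) = 0 := by
    have h2 : minpoly ℚ (lam l) = minpoly ℚ (om h l) :=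
      minpoly.algebraMap_eq (algebraMap (Om K) K).injective (om h l)
    rw [h2, aeval_algHom_apply, minpoly.aeval, map_zero]
  obtain ⟨m, hm⟩ := h.slope l _ h1
  refine ⟨2 * m - D * deg l, ?_⟩
  have h2 := congrArg Real.log hm
  rw [Real.log_pow, Real.log_zpow] at h2
  have h3 : (D : ℝ) * vl e ψ (om h l) = m := by
    rw [vl, mul_neg, mul_div_assoc', h2, Int.cast_neg, neg_mul, neg_div, neg_neg,
      mul_div_cancel_right₀ _ (logq_pos he).ne']
  rw [rho]
  push_cast
  linear_combination -2 * h3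

/-- The integral row. -/
noncomputable def rwi (he : 0 < e) (h : IsWeilFamily p e D lam deg) (l : ι) (ψ : Emb K p) : ℤ :=
  (exists_rw he h ψ l).choose

lemma rwi_eq (he : 0 < e) (h : IsWeilFamily p e D lam deg) (l : ι) (ψ : Emb K p) :
    (rwi he h l ψ : ℝ) = D * rho h ψ l := (exists_rw he h ψ l).choose_spec

/-- The product of the numbers is a power of `q` of the right weight, up to roots of unity. -/
def TMa (q : ℕ) (lam : ι → K) (deg : ι → ℕ) (M : Multiset ι) : Prop :=
  ∃ J : ℕ, (M.map deg).sum = 2 * J ∧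
    ∃ s, 0 < s ∧ (M.map lam).prod ^ s = ((q ^ (J * s) : ℕ) : K)

lemma coe_mprod (h : IsWeilFamily p e D lam deg) (M : Multiset ι) :
    (((M.map (om h)).prod : Om K) : K) = (M.map lam).prod := by
  induction M using Multiset.induction_on with
  | empty => simp
  | cons a M ih =>
    rw [Multiset.map_cons, Multiset.prod_cons, Multiset.map_cons, Multiset.prod_cons, ← ih]
    rfl

lemma sum_rho (h : IsWeilFamily p e D lam deg) (ψ : Emb K p) (M : Multiset ι) :
    (M.map (rho h ψ)).sum = 2 * (M.map fun l => vl e ψ (om h l)).sum - ((M.map deg).sum : ℕ) := by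
  induction M using Multiset.induction_on with
  | empty => simp
  | cons a M ih =>
    rw [Multiset.map_cons, Multiset.sum_cons, ih, Multiset.map_cons, Multiset.sum_cons,
      Multiset.map_cons, Multiset.sum_cons, rho]
    push_cast
    ring

/-- The valuations of Tate words. -/
lemma rho_of_tm (he : 0 < e) (h : IsWeilFamily p e D lam deg) {M : Multiset ι}
    (hM : TMa (p ^ e) lam deg M) (ψ : Emb K p) : (M.map (rho h ψ)).sum = 0 := by
  obtain ⟨J, hJ, s, hs, h1⟩ := hM
  have h2 : (M.map (om h)).prod ^ s = ((p : Om K) ^ e) ^ (J * s) := by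
    apply Subtype.ext
    rw [SubmonoidClass.coe_pow, coe_mprod, h1]
    push_cast
    rfl
  have h3 := congrArg (vl e ψ) h2
  rw [vl_pow, vl_pow, vl_q he, mul_one, vl_mprod ψ M (om_ne_zero he h)] at h3
  have hs' : (s : ℝ) ≠ 0 := by exact_mod_cast hs.ne'
  have h4 : (M.map fun l => vl e ψ (om h l)).sum = J := by
    apply mul_left_cancel₀ hs'
    rw [h3]
    push_cast
    ring
  rw [sum_rho, h4, hJ]
  push_cast
  ring

/-- Extension of embeddings. -/
lemma exists_ext {E : IntermediateField ℚ K} (hE : E ≤ Om K) (φ : E →ₐ[ℚ] PadicAlgCl p) :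
    ∃ ψ : Emb K p, ∀ x : E, ψ ⟨x, hE x.2⟩ = φ x := by
  let i : E →ₐ[ℚ] Om K := IntermediateField.inclusion hE
  let _ := i.toRingHom.toAlgebra
  let _ := φ.toRingHom.toAlgebra
  have h1 : IsScalarTower ℚ E (Om K) := IsScalarTower.of_algebraMap_eq fun x => (i.commutes x).symm
  have h2 : IsScalarTower ℚ E (PadicAlgCl p) :=
    IsScalarTower.of_algebraMap_eq fun x => (φ.commutes x).symm
  have h3 : Algebra.IsAlgebraic ℚ (Om K) := algebraicClosure.isAlgebraic ℚ K
  have h4 : Algebra.IsAlgebraic E (Om K) := Algebra.IsAlgebraic.tower_top (K := ℚ) E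
  have h5 : Module.IsTorsionFree E (Om K) :=
    Module.isTorsionFree_iff_algebraMap_injective.2 i.injective
  let ψ : Om K →ₐ[E] PadicAlgCl p := IsAlgClosed.lift
  refine ⟨ψ.restrictScalars ℚ, fun x => ?_⟩
  exact ψ.commutes x

/-- Words with vanishing valuations are Tate words. -/
lemma tm_of_rows (he : 0 < e) (hD : 0 < D) (h : IsWeilFamily p e D lam deg) {M : Multiset ι}
    (hpar : Even (M.map deg).sum) (hrow : ∀ ψ : Emb K p, (M.map fun l => rwi he h l ψ).sum = 0) :
    TMa (p ^ e) lam deg M := by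
  classical
  let F := {l // l ∈ M.toFinset}
  have h' : IsWeilFamily p e D (fun l : F => lam l) (fun l : F => deg l) :=
    ⟨fun l => h.int l, fun l => h.arch l, fun l => h.slope l⟩
  have hdegs : ∑ l : F, deg l * M.count (l : ι) = (M.map deg).sum := by
    rw [Finset.sum_multiset_map_count, ← Finset.sum_coe_sort M.toFinset]
    exact Finset.sum_congr rfl fun l _ => by rw [smul_eq_mul, mul_comm]
  have hlam : ∏ l : F, lam l ^ M.count (l : ι) = (M.map lam).prod := by
    rw [Finset.prod_multiset_map_count, ← Finset.prod_coe_sort M.toFinset]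
  have hle : EF (fun l : F => lam l) ≤ Om K := by
    refine IntermediateField.adjoin_le_iff.2 ?_
    rintro _ ⟨l, rfl⟩
    exact (om h l).2
  have h1 := isT_of_row_zero he hD h' (c := fun l => M.count (l : ι)) (by rwa [hdegs]) (by
    intro φ
    obtain ⟨ψ, hψ⟩ := exists_ext hle φ
    rw [← hrow ψ, Finset.sum_multiset_map_count, ← Finset.sum_coe_sort M.toFinset]
    refine Finset.sum_congr rfl fun l _ => ?_
    rw [nsmul_eq_mul, mul_comm]
    congr 1
    have h2 := mm_spec h' φ l
    have h3 : ψ (om h l) = φ (el (fun l : F => lam l) l) := hψ (el (fun l : F => lam l) l)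
    rw [← h3] at h2
    have h4 := congrArg Real.log h2
    rw [Real.log_pow, Real.log_zpow] at h4
    have h5 : (D : ℝ) * vl e ψ (om h l) = mm h' φ l := by
      rw [vl, mul_neg, mul_div_assoc', h4, Int.cast_neg, neg_mul, neg_div, neg_neg,
        mul_div_cancel_right₀ _ (logq_pos he).ne']
    have h6 : ((row h' φ l : ℤ) : ℝ) = (rwi he h l ψ : ℝ) := by
      rw [rwi_eq, rho, row]
      push_cast
      linear_combination -2 * h5
    exact_mod_cast h6)
  obtain ⟨⟨r, hr⟩, s, hs, h2⟩ := h1
  rw [hdegs] at hr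
  refine ⟨r, by omega, 2 * s, by omega, ?_⟩
  rw [← hlam, h2, hdegs, hr]
  push_cast
  congr 1
  ring

end Pool.Agent.R936.ArbF
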